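import Pool.Agent.Lib.MP_bdcdea_lc.ClubB

set_option autoImplicit false

/-!
# The second alternative, part 4: the principle (P) from a sparse stationary set
-/

namespace Pool.Agent.Lib.MP_bdcdea_lc

open Set Cardinal

/-- A strictly increasing sequence which converges to `d` has no limit points below `d`. -/
private theorem AltTwo_not_acc {K : Type} [LinearOrder K] {d : K} {f : ℕ → K} (hf : StrictMono f)
    (hcof : ∀ e < d, ∃ n, e < f n) {g : K} (hg : g < d) : ¬ Acc (range f) g := by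
  classical
  rintro ⟨⟨x, hx⟩, hcf⟩
  have hex : ∃ n, g ≤ f n := by
    obtain ⟨n, hn⟩ := hcof g hg
    exact ⟨n, hn.le⟩
  obtain ⟨n, hn, hmin⟩ : ∃ n, g ≤ f n ∧ ∀ m < n, f m < g :=
    ⟨Nat.find hex, Nat.find_spec hex, fun m hm => not_le.1 (Nat.find_min hex hm)⟩
  cases n with
  | zero =>
    obtain ⟨y, ⟨k, rfl⟩, _, hk⟩ := hcf x hx
    exact absurd ((hf.monotone (Nat.zero_le k)).trans_lt hk) (not_lt.2 hn)
  | succ m =>
    have h1 : f m < g := hmin m (Nat.lt_succ_self m)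
    obtain ⟨y, ⟨k, rfl⟩, hk1, hk2⟩ := hcf (f m) h1
    have h2 : m < k := hf.lt_iff_lt.1 hk1
    have h3 : f (m + 1) ≤ f k := hf.monotone h2
    exact absurd (h3.trans_lt hk2) (not_lt.2 hn)

theorem altTwo {K : Type} [LinearOrder K] [OmTwo K] {C : K → Set K} (hC : Coh C)
    {R : Set K} (hc : ∀ a ∈ R, CofW a)
    (hu : ∀ d, Lim d → ∀ a ∈ R, ∀ b ∈ R, a < d → b < d → Acc (C d) a → Acc (C d) b → a = b)
    {Om : K → Set K} (hOm : ∀ A : Set K, Stat {b | Om b = A ∩ Iio b})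
    {Ta Te : K → Set K}
    (hTh : ∀ A E : Set K, Stat {d | d ∈ R ∧ Ta d = A ∩ Iio d ∧ Te d = E ∩ Iio d}) :
    ∃ C' : K → Set K, PP C' Om := by
  classical
  -- the sequences
  have hF : ∀ d : K, ∃ f : ℕ → K, d ∈ R →
      (StrictMono f ∧ (∀ n, f n < d) ∧ (∀ e < d, ∃ n, e < f n)) ∧
      ((∃ f' : ℕ → K, (StrictMono f' ∧ (∀ n, f' n < d) ∧ (∀ e < d, ∃ n, e < f' n)) ∧
        ∀ n, f' n ∈ Te d ∧ Om (f' n) = Ta d ∩ Iio (f' n)) →
        ∀ n, f n ∈ Te d ∧ Om (f n) = Ta d ∩ Iio (f n)) := by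
    intro d
    by_cases hd : d ∈ R
    · by_cases hex : ∃ f' : ℕ → K, (StrictMono f' ∧ (∀ n, f' n < d) ∧
        (∀ e < d, ∃ n, e < f' n)) ∧ ∀ n, f' n ∈ Te d ∧ Om (f' n) = Ta d ∩ Iio (f' n)
      · obtain ⟨f', h1, h2⟩ := hex
        exact ⟨f', fun _ => ⟨h1, fun _ => h2⟩⟩
      · obtain ⟨f, hf⟩ := hc d hd
        exact ⟨f, fun _ => ⟨hf, fun h => absurd h hex⟩⟩
    · exact ⟨fun _ => d, fun h => absurd h hd⟩
  choose F hF using hF
  set C' : K → Set K := fun d => if d ∈ R then range (F d) else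
    {x | x ∈ C d ∧ ∀ a ∈ R, a < d → Acc (C d) a → a < x} with hC'
  have e1 : ∀ d ∈ R, C' d = range (F d) := fun d hd => by
    simp only [hC', if_pos hd]
  have e2 : ∀ d, d ∉ R → C' d = {x | x ∈ C d ∧ ∀ a ∈ R, a < d → Acc (C d) a → a < x} :=
    fun d hd => by simp only [hC', if_neg hd]
  -- no limit points below for `d ∈ R`
  have hno : ∀ d ∈ R, ∀ g < d, ¬ Acc (C' d) g := by
    intro d hd g hg
    rw [e1 d hd]
    exact AltTwo_not_acc (hF d hd).1.1 (hF d hd).1.2.2 hg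
  -- what happens at the other points
  have hkey : ∀ d, Lim d → d ∉ R → ∀ g < d, Acc (C' d) g → g ∈ C d ∧ C g = C d ∩ Iio g ∧ g ∉ R ∧
      ∀ a ∈ R, a < d → Acc (C d) a → a < g := by
    intro d hl hd g hg hacc
    rw [e2 d hd] at hacc
    have h1 : Acc (C d) g := hacc.mono fun x hx => hx.1
    have h2 : ∀ a ∈ R, a < d → Acc (C d) a → a < g := by
      intro a ha had haa
      obtain ⟨y, hy⟩ := hacc.1
      obtain ⟨x, hx, _, hxg⟩ := hacc.2 y hy
      exact (hx.2 a ha had haa).trans hxg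
    refine ⟨hC.clo d hl g hg h1, hC.coh d hl g hg h1, fun hgR => ?_, h2⟩
    exact lt_irrefl _ (h2 g hgR hg h1)
  refine ⟨C', ⟨?_, ?_, ?_, ?_⟩, ?_⟩
  · -- `lt`
    intro d hl x hx
    by_cases hd : d ∈ R
    · rw [e1 d hd] at hx
      obtain ⟨n, rfl⟩ := hx
      exact (hF d hd).1.2.1 n
    · rw [e2 d hd] at hx
      exact hC.lt d hl x hx.1
  · -- `cof`
    intro d hl e he
    by_cases hd : d ∈ R
    · obtain ⟨n, hn⟩ := (hF d hd).1.2.2 e he
      refine ⟨F d n, ?_, hn, (hF d hd).1.2.1 n⟩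
      rw [e1 d hd]
      exact ⟨n, rfl⟩
    · by_cases hex : ∃ a ∈ R, a < d ∧ Acc (C d) a
      · obtain ⟨a, ha, had, haa⟩ := hex
        obtain ⟨x, hx, hex, hxd⟩ := hC.cof d hl (max e a) (max_lt he had)
        refine ⟨x, ?_, (le_max_left _ _).trans_lt hex, hxd⟩
        rw [e2 d hd]
        refine ⟨hx, fun a' ha' ha'd ha'a => ?_⟩
        rw [hu d hl a' ha' a ha ha'd had ha'a haa]
        exact (le_max_right _ _).trans_lt hex
      · obtain ⟨x, hx, hex', hxd⟩ := hC.cof d hl e he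
        refine ⟨x, ?_, hex', hxd⟩
        rw [e2 d hd]
        exact ⟨hx, fun a' ha' ha'd ha'a => absurd ⟨a', ha', ha'd, ha'a⟩ hex⟩
  · -- `clo`
    intro d hl g hg hacc
    by_cases hd : d ∈ R
    · exact absurd hacc (hno d hd g hg)
    · obtain ⟨h1, h2, h3, h4⟩ := hkey d hl hd g hg hacc
      rw [e2 d hd]
      exact ⟨h1, h4⟩
  · -- `coh`
    intro d hl g hg hacc
    by_cases hd : d ∈ R
    · exact absurd hacc (hno d hd g hg)
    · obtain ⟨h1, h2, h3, h4⟩ := hkey d hl hd g hg hacc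
      rw [e2 d hd, e2 g h3]
      ext x
      constructor
      · rintro ⟨hx1, hx2⟩
        rw [h2] at hx1
        refine ⟨⟨hx1.1, fun a ha had haa => ?_⟩, hx1.2⟩
        have hag := h4 a ha had haa
        apply hx2 a ha hag
        rw [h2]
        exact (acc_inter_Iio hag.le).2 haa
      · rintro ⟨⟨hx1, hx2⟩, hx3⟩
        refine ⟨?_, fun a ha hag haa => ?_⟩
        · rw [h2]
          exact ⟨hx1, hx3⟩
        · rw [h2] at haa
          exact hx2 a ha (hag.trans hg) ((acc_inter_Iio hag.le).1 haa)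
  · -- `hit`
    intro A E hE
    have hB : Stat ({b | Om b = A ∩ Iio b} ∩ E) := (hOm A).inter_club hE
    have hcl : Club {d | Acc ({b | Om b = A ∩ Iio b} ∩ E) d} := club_acc hB.unb
    obtain ⟨d, ⟨hdR, hTa, hTe⟩, hacc⟩ := hTh A E _ hcl
    have hdc := hc d hdR
    obtain ⟨f, hf1, hf2, hf3⟩ := hdc.exists_seq hacc.2
    have hgood := (hF d hdR).2 ⟨f, ⟨hf1, fun n => (hf2 n).2, hf3⟩, fun n => by
      refine ⟨?_, ?_⟩
      · rw [hTe]
        exact ⟨(hf2 n).1.2, (hf2 n).2⟩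
      · have h1 : Om (f n) = A ∩ Iio (f n) := (hf2 n).1.1
        rw [h1, hTa]
        ext x
        constructor
        · rintro ⟨hx1, hx2⟩
          exact ⟨⟨hx1, lt_trans hx2 (hf2 n).2⟩, hx2⟩
        · rintro ⟨hx1, hx2⟩
          exact ⟨hx1.1, hx2⟩⟩
    refine ⟨d, hdc.lim, fun e he => ?_⟩
    obtain ⟨n, hn⟩ := (hF d hdR).1.2.2 e he
    have hnd := (hF d hdR).1.2.1 n
    refine ⟨F d n, ⟨⟨?_, hno d hdR _ hnd⟩, ?_, ?_⟩, hn, hnd⟩
    · rw [e1 d hdR]
      exact ⟨n, rfl⟩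
    · have h1 := (hgood n).1
      rw [hTe] at h1
      exact h1.1
    · rw [(hgood n).2, hTa]
      ext x
      constructor
      · rintro ⟨hx1, hx2⟩
        exact ⟨hx1.1, hx2⟩
      · rintro ⟨hx1, hx2⟩
        exact ⟨⟨hx1, lt_trans hx2 hnd⟩, hx2⟩

end Pool.Agent.Lib.MP_bdcdea_lc
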