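import Pool.Agent.Lib.MP_bdcdea_lc.Defs

set_option autoImplicit false

/-!
# Closed unbounded sets, part A

Elementary facts on bounds, suprema and closed unbounded subsets of a copy of `ω₂`.
-/

namespace Pool.Agent.Lib.MP_bdcdea_lc

open Set Cardinal

section

variable {K : Type} [LinearOrder K]

theorem Cofin.mono {X Y : Set K} {a : K} (h : Cofin X a) (hXY : X ⊆ Y) : Cofin Y a := by
  intro e he
  obtain ⟨x, hx, h1, h2⟩ := h e he
  exact ⟨x, hXY hx, h1, h2⟩

theorem Acc.mono {X Y : Set K} {a : K} (h : Acc X a) (hXY : X ⊆ Y) : Acc Y a :=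
  ⟨h.1, h.2.mono hXY⟩

theorem Acc.lim {X : Set K} {a : K} (h : Acc X a) : Lim a := h.mono (subset_univ X)

/-- `Acc` depends only on the elements below the point. -/
theorem acc_congr {X Y : Set K} {a b : K} (h : ∀ x < a, x ∈ X ↔ x ∈ Y) (hb : b ≤ a) :
    Acc X b ↔ Acc Y b := by
  constructor
  · rintro ⟨h1, h2⟩
    refine ⟨h1, fun e he => ?_⟩
    obtain ⟨x, hx, h3, h4⟩ := h2 e he
    exact ⟨x, (h x (lt_of_lt_of_le h4 hb)).1 hx, h3, h4⟩
  · rintro ⟨h1, h2⟩
    refine ⟨h1, fun e he => ?_⟩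
    obtain ⟨x, hx, h3, h4⟩ := h2 e he
    exact ⟨x, (h x (lt_of_lt_of_le h4 hb)).2 hx, h3, h4⟩

theorem acc_inter_Iio {X : Set K} {a b : K} (hb : b ≤ a) : Acc (X ∩ Iio a) b ↔ Acc X b :=
  acc_congr (fun _ hx => ⟨fun h => h.1, fun h => ⟨h, hx⟩⟩) hb

theorem nac_inter_Iio {X : Set K} {a b : K} (hb : b < a) : Nac (X ∩ Iio a) b ↔ Nac X b := by
  constructor
  · rintro ⟨h1, h2⟩
    exact ⟨h1.1, fun h => h2 ((acc_inter_Iio hb.le).2 h)⟩
  · rintro ⟨h1, h2⟩
    exact ⟨⟨h1, hb⟩, fun h => h2 ((acc_inter_Iio hb.le).1 h)⟩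

theorem acc_acc {X : Set K} {a : K} (h : Acc {x | Acc X x} a) : Acc X a := by
  refine ⟨h.1, fun e he => ?_⟩
  obtain ⟨x, hx, h1, h2⟩ := h.2 e he
  obtain ⟨y, hy, h3, h4⟩ := hx.2 e h1
  exact ⟨y, hy, h3, h4.trans h2⟩

theorem CofW.lim {a : K} (h : CofW a) : Lim a := by
  obtain ⟨f, _, h1, h2⟩ := h
  refine ⟨⟨f 0, h1 0⟩, fun e he => ?_⟩
  obtain ⟨n, hn⟩ := h2 e he
  exact ⟨f n, mem_univ _, hn, h1 n⟩

/-- A set which is cofinal in a point of cofinality `ω` contains a strictly increasing sequence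
converging to the point. -/
theorem CofW.exists_seq {a : K} (h : CofW a) {X : Set K} (hX : Cofin X a) :
    ∃ f : ℕ → K, StrictMono f ∧ (∀ n, f n ∈ X ∧ f n < a) ∧ ∀ e < a, ∃ n, e < f n := by
  obtain ⟨g, _, h1, h2⟩ := h
  have h3 : ∀ e : K, ∃ x, e < a → x ∈ X ∧ e < x ∧ x < a := by
    intro e
    by_cases he : e < a
    · obtain ⟨x, hx⟩ := hX e he
      exact ⟨x, fun _ => hx⟩
    · exact ⟨e, fun h => absurd h he⟩
  choose c hc using h3
  let F : ℕ → K := fun n => Nat.rec (c (g 0)) (fun m y => c (max (g (m + 1)) y)) n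
  have F0 : F 0 = c (g 0) := rfl
  have FS : ∀ n, F (n + 1) = c (max (g (n + 1)) (F n)) := fun n => rfl
  have Flt : ∀ n, F n ∈ X ∧ F n < a := by
    intro n
    induction n with
    | zero =>
      rw [F0]
      exact ⟨(hc _ (h1 0)).1, (hc _ (h1 0)).2.2⟩
    | succ m ih =>
      rw [FS]
      have h4 : max (g (m + 1)) (F m) < a := max_lt (h1 _) ih.2
      exact ⟨(hc _ h4).1, (hc _ h4).2.2⟩
  have gF : ∀ n, g n < F n := by
    intro n
    cases n with
    | zero =>
      rw [F0]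
      exact (hc _ (h1 0)).2.1
    | succ m =>
      rw [FS]
      have h4 : max (g (m + 1)) (F m) < a := max_lt (h1 _) (Flt m).2
      exact lt_of_le_of_lt (le_max_left _ _) (hc _ h4).2.1
  refine ⟨F, strictMono_nat_of_lt_succ fun n => ?_, Flt, fun e he => ?_⟩
  · rw [FS]
    have h4 : max (g (n + 1)) (F n) < a := max_lt (h1 _) (Flt n).2
    exact lt_of_le_of_lt (le_max_right _ _) (hc _ h4).2.1
  · obtain ⟨n, hn⟩ := h2 e he
    exact ⟨n, hn.trans (gF n)⟩

end

section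

variable {K : Type} [LinearOrder K] [OmTwo K]

private theorem mk_Iic_le (a : K) : Cardinal.mk (Iic a) ≤ Cardinal.aleph 1 := by
  have h1 : Iic a = insert a (Iio a) := by
    ext x
    simp only [mem_Iic, mem_insert_iff, mem_Iio]
    exact le_iff_eq_or_lt
  rw [h1]
  refine (Cardinal.mk_insert_le).trans ?_
  refine (add_le_add (OmTwo.ini a) (le_refl (1 : Cardinal))).trans ?_
  exact (Cardinal.add_one_eq (Cardinal.aleph0_le_aleph 1)).le

omit [LinearOrder K] [OmTwo K] in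
private theorem mk_biUnion_le1 {ι : Type} (F : ι → Set K) (s : Set ι)
    (hs : Cardinal.mk s ≤ Cardinal.aleph 1) (hF : ∀ i, Cardinal.mk (F i) ≤ Cardinal.aleph 1) :
    Cardinal.mk (⋃ i ∈ s, F i : Set K) ≤ Cardinal.aleph 1 := by
  refine (Cardinal.mk_biUnion_le F s).trans ?_
  have h1 : (⨆ x : s, Cardinal.mk (F x.1)) ≤ Cardinal.aleph 1 := ciSup_le' fun i => hF i.1
  refine (mul_le_mul' hs h1).trans ?_
  exact (Cardinal.mul_eq_self (Cardinal.aleph0_le_aleph 1)).le

/-- Every subset of size at most `ℵ₁` has a strict upper bound. -/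
theorem exists_bd (s : Set K) (hs : Cardinal.mk s ≤ Cardinal.aleph 1) :
    ∃ b : K, ∀ x ∈ s, x < b := by
  by_contra hcon
  have h1 : (univ : Set K) ⊆ ⋃ x ∈ s, Iic x := by
    intro b _
    by_contra hb
    refine hcon ⟨b, fun x hx => ?_⟩
    by_contra h2
    refine hb (mem_iUnion₂.2 ⟨x, hx, ?_⟩)
    exact not_lt.1 h2
  have h2 : Cardinal.mk K ≤ Cardinal.aleph 1 := by
    rw [← Cardinal.mk_univ]
    exact (Cardinal.mk_le_mk_of_subset h1).trans (mk_biUnion_le1 _ s hs mk_Iic_le)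
  rw [OmTwo.card] at h2
  have h3 : (1 : Ordinal) < 2 := by exact_mod_cast (one_lt_two : (1 : ℕ) < 2)
  exact absurd h2 (not_le.2 (Cardinal.aleph_lt_aleph.2 h3))

theorem exists_above (a : K) : ∃ b : K, a < b := by
  obtain ⟨b, hb⟩ := exists_bd ({a} : Set K) (by
    rw [Cardinal.mk_singleton]
    exact (Cardinal.one_lt_aleph0.le).trans (Cardinal.aleph0_le_aleph 1))
  exact ⟨b, hb a rfl⟩

/-- every nonempty set has a least element -/
theorem exists_least {s : Set K} (hs : s.Nonempty) : ∃ m ∈ s, ∀ x ∈ s, m ≤ x := by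
  have : WellFoundedLT K := OmTwo.wf
  obtain ⟨m, hm, h⟩ := (wellFounded_lt : WellFounded ((· < ·) : K → K → Prop)).has_min s hs
  exact ⟨m, hm, fun x hx => not_lt.1 (h x hx)⟩

/-- successors -/
theorem exists_succ (a : K) : ∃ b : K, a < b ∧ ∀ x, a < x → b ≤ x :=
  exists_least (s := {x | a < x}) (exists_above a)

omit [LinearOrder K] [OmTwo K] in
private theorem mk_range_nat (f : ℕ → K) : Cardinal.mk (range f) ≤ Cardinal.aleph 1 := by
  have h1 : Cardinal.mk (range f) ≤ Cardinal.mk ℕ := Cardinal.mk_range_le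
  rw [Cardinal.mk_nat] at h1
  exact h1.trans (Cardinal.aleph0_le_aleph 1)

/-- least upper bounds of increasing sequences -/
theorem exists_limit (f : ℕ → K) (hf : StrictMono f) :
    ∃ a : K, (∀ n, f n < a) ∧ ∀ e < a, ∃ n, e < f n := by
  have h1 : ∃ b : K, ∀ n, f n < b := by
    obtain ⟨b, hb⟩ := exists_bd (range f) (mk_range_nat f)
    exact ⟨b, fun n => hb _ ⟨n, rfl⟩⟩
  obtain ⟨a, ha, hmin⟩ := exists_least (s := {b | ∀ n, f n < b}) h1
  refine ⟨a, ha, fun e he => ?_⟩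
  by_contra hcon
  have h2 : ∀ n, f n ≤ e := fun n => not_lt.1 fun h => hcon ⟨n, h⟩
  have h3 : ∀ n, f n < e := fun n => lt_of_lt_of_le (hf (Nat.lt_succ_self n)) (h2 (n + 1))
  exact absurd he (not_lt.2 (hmin e h3))

/-- largest elements below a bound in a closed set -/
theorem exists_maxLe {D : Set K} {η : K} (hD : ∀ a ≤ η, Acc D a → a ∈ D)
    (h : ∃ d ∈ D, d ≤ η) : ∃ w, MaxLe D η w := by
  obtain ⟨u, hu, hmin⟩ := exists_least (s := {u | ∀ d ∈ D, d ≤ η → d ≤ u})
    ⟨η, fun d _ h => h⟩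
  have huη : u ≤ η := hmin η fun d _ h => h
  refine ⟨u, ?_, huη, hu⟩
  by_contra hcon
  have h1 : ∀ d ∈ D, d ≤ η → d < u := by
    intro d hd h2
    refine lt_of_le_of_ne (hu d hd h2) ?_
    intro h3
    exact hcon (h3 ▸ hd)
  refine hcon (hD u huη ⟨?_, fun e he => ?_⟩)
  · obtain ⟨d, hd, h2⟩ := h
    exact ⟨d, h1 d hd h2⟩
  · by_contra h2
    have h3 : ∀ d ∈ D, d ≤ η → d ≤ e := by
      intro d hd h4
      by_contra h5
      exact h2 ⟨d, hd, not_le.1 h5, h1 d hd h4⟩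
    exact absurd he (not_lt.2 (hmin e h3))

/-- the predecessor of a non-accumulation point in a closed set -/
theorem exists_pred {X : Set K} {b : K} (hX : ∀ a < b, Acc X a → a ∈ X) (hb : ¬ Acc X b)
    (h : ∃ c ∈ X, c < b) : ∃ c ∈ X, c < b ∧ ∀ d ∈ X, d < b → d ≤ c := by
  obtain ⟨c, hc, hcb⟩ := h
  have h1 : ¬ Cofin X b := fun h => hb ⟨⟨c, hcb⟩, h⟩
  have h2 : ∃ e < b, ∀ x ∈ X, x < b → x ≤ e := by
    by_contra hcon
    refine h1 fun e he => ?_
    by_contra h3
    refine hcon ⟨e, he, fun x hx hxb => ?_⟩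
    by_contra h4
    exact h3 ⟨x, hx, not_le.1 h4, hxb⟩
  obtain ⟨e, he, h3⟩ := h2
  obtain ⟨w, hw, hwe, hmax⟩ := exists_maxLe (D := X) (η := e)
    (fun a ha hacc => hX a (lt_of_le_of_lt ha he) hacc) ⟨c, hc, h3 c hc hcb⟩
  exact ⟨w, hw, lt_of_le_of_lt hwe he, fun d hd hdb => hmax d hd (h3 d hd hdb)⟩

private theorem iter_lim (P : K → K → Prop) (h : ∀ a, ∃ b, a < b ∧ P a b) (e : K) :
    ∃ a, e < a ∧ ∀ d < a, ∃ x y, d < x ∧ x < y ∧ y < a ∧ P x y := by
  choose c hc using h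
  let F : ℕ → K := fun n => Nat.rec (c e) (fun _ y => c y) n
  have F0 : F 0 = c e := rfl
  have FS : ∀ n, F (n + 1) = c (F n) := fun n => rfl
  have hF : StrictMono F := strictMono_nat_of_lt_succ fun n => by
    rw [FS]
    exact (hc _).1
  obtain ⟨a, ha, ha'⟩ := exists_limit F hF
  refine ⟨a, ?_, fun d hd => ?_⟩
  · exact lt_trans (hc e).1 (ha 0)
  · obtain ⟨n, hn⟩ := ha' d hd
    refine ⟨F n, F (n + 1), hn, hF (Nat.lt_succ_self n), ha (n + 1), ?_⟩
    rw [FS]
    exact (hc _).2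

theorem club_univ : Club (univ : Set K) where
  unb := fun e => by
    obtain ⟨b, hb⟩ := exists_above e
    exact ⟨b, mem_univ _, hb⟩
  clo := fun a _ => mem_univ a

/-- the limit points of an unbounded set -/
theorem club_acc {X : Set K} (hX : ∀ e, ∃ x ∈ X, e < x) : Club {a | Acc X a} where
  unb := fun e => by
    obtain ⟨a, hea, ha⟩ := iter_lim (fun _ b => b ∈ X)
      (fun a => by
        obtain ⟨x, hx, h1⟩ := hX a
        exact ⟨x, h1, hx⟩) e
    refine ⟨a, ⟨⟨e, hea⟩, fun d hd => ?_⟩, hea⟩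
    obtain ⟨x, y, h1, h2, h3, h4⟩ := ha d hd
    exact ⟨y, h4, h1.trans h2, h3⟩
  clo := fun _ h => acc_acc h

theorem club_lim : Club {a : K | Lim a} :=
  club_acc (X := (univ : Set K)) fun e => by
    obtain ⟨b, hb⟩ := exists_above e
    exact ⟨b, mem_univ _, hb⟩

/-- the closure points of a function whose values are sets of size at most `ℵ₁` -/
theorem club_closed_set (F : K → Set K) (hF : ∀ b, Cardinal.mk (F b) ≤ Cardinal.aleph 1) :
    Club {a | ∀ b < a, ∀ x ∈ F b, x < a} where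
  unb := fun e => by
    obtain ⟨a, hea, ha⟩ := iter_lim (fun a c => ∀ b ≤ a, ∀ x ∈ F b, x < c)
      (fun a => by
        obtain ⟨c, hc⟩ := exists_bd (⋃ b ∈ Iic a, F b) (mk_biUnion_le1 F (Iic a) (mk_Iic_le a) hF)
        obtain ⟨c', hc'⟩ := exists_above (max a c)
        refine ⟨c', lt_of_le_of_lt (le_max_left _ _) hc', fun b hb x hx => ?_⟩
        have h1 : x < c := hc x (mem_iUnion₂.2 ⟨b, hb, hx⟩)
        exact h1.trans (lt_of_le_of_lt (le_max_right _ _) hc')) e
    refine ⟨a, fun b hb x hx => ?_, hea⟩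
    obtain ⟨y, z, h1, h2, h3, h4⟩ := ha b hb
    exact (h4 b h1.le x hx).trans h3
  clo := fun a h b hb x hx => by
    obtain ⟨b', hb', h1, h2⟩ := h.2 b hb
    exact (hb' b h1 x hx).trans h2

/-- the closure points of a function -/
theorem club_closed (f : K → K) : Club {a | ∀ b < a, f b < a} := by
  have h := club_closed_set (fun b => ({f b} : Set K)) (fun b => by
    rw [Cardinal.mk_singleton]
    exact (Cardinal.one_lt_aleph0.le).trans (Cardinal.aleph0_le_aleph 1))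
  have h1 : {a : K | ∀ b < a, ∀ x ∈ ({f b} : Set K), x < a} = {a | ∀ b < a, f b < a} := by
    ext a
    simp only [mem_ofPred_eq, mem_singleton_iff, forall_eq]
  rw [← h1]
  exact h

theorem club_iInter {ι : Type} (hι : Cardinal.mk ι ≤ Cardinal.aleph 1) (D : ι → Set K)
    (h : ∀ i, Club (D i)) : Club (⋂ i, D i) where
  unb := fun e => by
    obtain ⟨a, hea, ha⟩ := iter_lim (fun a c => ∀ i, ∃ d ∈ D i, a < d ∧ d < c)
      (fun a => by
        choose d hd using fun i => (h i).unb a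
        obtain ⟨c, hc⟩ := exists_bd (range d) (Cardinal.mk_range_le.trans hι)
        obtain ⟨c', hc'⟩ := exists_above (max a c)
        refine ⟨c', lt_of_le_of_lt (le_max_left _ _) hc', fun i => ⟨d i, (hd i).1, (hd i).2, ?_⟩⟩
        exact (hc _ ⟨i, rfl⟩).trans (lt_of_le_of_lt (le_max_right _ _) hc')) e
    refine ⟨a, mem_iInter.2 fun i => (h i).clo a ⟨⟨e, hea⟩, fun b hb => ?_⟩, hea⟩
    obtain ⟨y, z, h1, h2, h3, h4⟩ := ha b hb
    obtain ⟨d, hd, h5, h6⟩ := h4 i
    exact ⟨d, hd, h1.trans h5, h6.trans h3⟩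
  clo := fun a ha => mem_iInter.2 fun i => (h i).clo a (ha.mono (iInter_subset D i))

theorem Club.inter {D E : Set K} (hD : Club D) (hE : Club E) : Club (D ∩ E) := by
  rw [inter_eq_iInter]
  refine club_iInter ?_ _ fun i => ?_
  · have h1 : Cardinal.mk Bool < Cardinal.aleph0 := Cardinal.lt_aleph0_of_finite Bool
    exact h1.le.trans (Cardinal.aleph0_le_aleph 1)
  · cases i
    · exact hE
    · exact hD

/-- diagonal intersections -/
theorem club_diag (D : K → Set K) (h : ∀ a, Club (D a)) : Club {a | ∀ b < a, a ∈ D b} where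
  unb := fun e => by
    obtain ⟨a, hea, ha⟩ := iter_lim (fun a c => ∀ b ≤ a, ∃ d ∈ D b, a < d ∧ d < c)
      (fun a => by
        choose d hd using fun b => (h b).unb a
        obtain ⟨c, hc⟩ := exists_bd (d '' Iic a) (Cardinal.mk_image_le.trans (mk_Iic_le a))
        obtain ⟨c', hc'⟩ := exists_above (max a c)
        refine ⟨c', lt_of_le_of_lt (le_max_left _ _) hc', fun b hb => ⟨d b, (hd b).1, (hd b).2, ?_⟩⟩
        exact (hc _ ⟨b, hb, rfl⟩).trans (lt_of_le_of_lt (le_max_right _ _) hc')) e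
    refine ⟨a, fun b hb => (h b).clo a ⟨⟨e, hea⟩, fun b' hb' => ?_⟩, hea⟩
    obtain ⟨y, z, h1, h2, h3, h4⟩ := ha (max b b') (max_lt hb hb')
    obtain ⟨d, hd, h5, h6⟩ := h4 b ((le_max_left _ _).trans h1.le)
    exact ⟨d, hd, (lt_of_le_of_lt (le_max_right _ _) h1).trans h5, h6.trans h3⟩
  clo := fun a ha b hb => by
    refine (h b).clo a ⟨⟨b, hb⟩, fun e he => ?_⟩
    obtain ⟨x, hx, h1, h2⟩ := ha.2 (max b e) (max_lt hb he)
    exact ⟨x, hx b (lt_of_le_of_lt (le_max_left _ _) h1), lt_of_le_of_lt (le_max_right _ _) h1, h2⟩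

end

section

variable {J : Type} [LinearOrder J] [OmOne J]

theorem mk_J_le : Cardinal.mk J ≤ Cardinal.aleph 1 := OmOne.card.le

theorem not_countable_J : ¬ (univ : Set J).Countable := by
  intro h
  have h1 : Countable J := countable_univ_iff.1 h
  have h2 : Cardinal.mk J ≤ Cardinal.aleph0 := Cardinal.mk_le_aleph0_iff.2 h1
  rw [OmOne.card] at h2
  exact absurd h2 (not_le.2 Cardinal.aleph0_lt_aleph_one)

/-- Countable subsets of a copy of `ω₁` have a strict upper bound. -/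
theorem exists_bdJ (s : Set J) (hs : s.Countable) : ∃ b : J, ∀ x ∈ s, x < b := by
  by_contra hcon
  have h1 : (univ : Set J) ⊆ ⋃ x ∈ s, Iic x := by
    intro b _
    by_contra hb
    refine hcon ⟨b, fun x hx => ?_⟩
    by_contra h2
    refine hb (mem_iUnion₂.2 ⟨x, hx, ?_⟩)
    exact not_lt.1 h2
  have h2 : (⋃ x ∈ s, Iic x).Countable := by
    refine hs.biUnion fun x _ => ?_
    have h3 : Iic x = insert x (Iio x) := by
      ext y
      simp only [mem_Iic, mem_insert_iff, mem_Iio]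
      exact le_iff_eq_or_lt
    rw [h3]
    exact (OmOne.ini x).insert x
  exact not_countable_J (h2.mono h1)

theorem exists_leastJ {s : Set J} (hs : s.Nonempty) : ∃ m ∈ s, ∀ x ∈ s, m ≤ x := by
  have : WellFoundedLT J := OmOne.wf
  obtain ⟨m, hm, h⟩ := (wellFounded_lt : WellFounded ((· < ·) : J → J → Prop)).has_min s hs
  exact ⟨m, hm, fun x hx => not_lt.1 (h x hx)⟩

theorem exists_succJ (a : J) : ∃ b : J, a < b ∧ ∀ x, a < x → b ≤ x := by
  have h1 : ∃ b : J, a < b := by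
    obtain ⟨b, hb⟩ := exists_bdJ ({a} : Set J) (countable_singleton a)
    exact ⟨b, hb a rfl⟩
  exact exists_leastJ (s := {x | a < x}) h1

end

end Pool.Agent.Lib.MP_bdcdea_lc
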