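import Pool.Agent.Lib.MP_bdcdea_lc.ClubA

set_option autoImplicit false

/-!
# Closed unbounded sets, part B: stationary sets
-/

namespace Pool.Agent.Lib.MP_bdcdea_lc

open Set Cardinal

variable {K : Type} [LinearOrder K] [OmTwo K]

theorem Stat.mono {S T : Set K} (h : Stat S) (hST : S ⊆ T) : Stat T := by
  intro D hD
  obtain ⟨a, ha, hd⟩ := h D hD
  exact ⟨a, hST ha, hd⟩

theorem Stat.inter_club {S D : Set K} (hS : Stat S) (hD : Club D) : Stat (S ∩ D) := by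
  intro E hE
  obtain ⟨a, ha, hb⟩ := hS (D ∩ E) (hD.inter hE)
  exact ⟨a, ⟨ha, hb.1⟩, hb.2⟩

theorem Stat.unb {S : Set K} (hS : Stat S) : ∀ e, ∃ x ∈ S, e < x := by
  intro e
  have hC : Club {x : K | e < x} := by
    refine ⟨fun e' => ?_, fun a ha => ?_⟩
    · obtain ⟨b, hb⟩ := exists_above (max e e')
      exact ⟨b, (le_max_left e e').trans_lt hb, (le_max_right e e').trans_lt hb⟩
    · obtain ⟨⟨x, hx⟩, hc⟩ := ha
      obtain ⟨y, hy, _, hya⟩ := hc x hx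
      exact lt_trans hy hya
  obtain ⟨a, ha, hea⟩ := hS _ hC
  exact ⟨a, ha, hea⟩

theorem stat_cofW : Stat {a : K | CofW a} := by
  intro D hD
  have hne : Nonempty K := by
    rw [← Cardinal.mk_ne_zero_iff, OmTwo.card (K := K)]
    exact (Cardinal.aleph_pos 2).ne'
  choose g hg1 hg2 using hD.unb
  obtain ⟨x0⟩ := hne
  let f : ℕ → K := fun n => g^[n + 1] x0
  have hs : ∀ n, f (n + 1) = g (f n) := fun n => Function.iterate_succ_apply' g (n + 1) x0
  have hf : StrictMono f := strictMono_nat_of_lt_succ fun n => by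
    rw [hs]
    exact hg2 _
  have hfD : ∀ n, f n ∈ D := by
    intro n
    have h1 : f n = g (g^[n] x0) := Function.iterate_succ_apply' g n x0
    rw [h1]
    exact hg1 _
  obtain ⟨a, ha1, ha2⟩ := exists_limit f hf
  refine ⟨a, ⟨f, hf, ha1, ha2⟩, hD.clo a ⟨⟨f 0, ha1 0⟩, fun e he => ?_⟩⟩
  obtain ⟨n, hn⟩ := ha2 e he
  exact ⟨f n, hfD n, hn, ha1 n⟩

theorem stat_iUnion {ι : Type} (hι : Cardinal.mk ι ≤ Cardinal.aleph 1) (S : ι → Set K)
    (h : Stat (⋃ i, S i)) : ∃ i, Stat (S i) := by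
  by_contra hcon
  have h1 : ∀ i, ∃ D, Club D ∧ ∀ a ∈ S i, a ∉ D := by
    intro i
    by_contra h2
    refine hcon ⟨i, fun D hD => ?_⟩
    by_contra h3
    exact h2 ⟨D, hD, fun a ha hd => h3 ⟨a, ha, hd⟩⟩
  choose D hD hdis using h1
  obtain ⟨a, ha, hd⟩ := h _ (club_iInter hι D hD)
  obtain ⟨i, hi⟩ := mem_iUnion.1 ha
  exact hdis i a hi (mem_iInter.1 hd i)

/-- Fodor's lemma -/
theorem fodor {S : Set K} (hS : Stat S) (f : K → K) (hf : ∀ a ∈ S, f a < a) :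
    ∃ e, Stat {a | a ∈ S ∧ f a = e} := by
  by_contra hcon
  have h1 : ∀ e, ∃ D, Club D ∧ ∀ a ∈ S, f a = e → a ∉ D := by
    intro e
    by_contra h2
    refine hcon ⟨e, fun D hD => ?_⟩
    by_contra h3
    exact h2 ⟨D, hD, fun a ha hae hd => h3 ⟨a, ⟨ha, hae⟩, hd⟩⟩
  choose D hD hdis using h1
  obtain ⟨a, ha, hd⟩ := hS _ (club_diag D hD)
  exact hdis (f a) a ha rfl (hd (f a) (hf a ha))

end Pool.Agent.Lib.MP_bdcdea_lc
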