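import Mathlib

set_option autoImplicit false

/-!
# Definitions for MP_bdcdea_lc (square and Souslin trees at the second uncountable cardinal)

`K` is a well-ordered copy of `ω₂`, `J` is a well-ordered copy of `ω₁`.
-/

namespace Pool.Agent.Lib.MP_bdcdea_lc

open Set Cardinal

/-- `K` is a copy of `ω₂`. -/
class OmTwo (K : Type) [LinearOrder K] : Prop where
  wf : WellFoundedLT K
  card : Cardinal.mk K = Cardinal.aleph 2
  ini : ∀ a : K, Cardinal.mk (Iio a) ≤ Cardinal.aleph 1

/-- `J` is a copy of `ω₁`. -/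
class OmOne (J : Type) [LinearOrder J] : Prop where
  wf : WellFoundedLT J
  card : Cardinal.mk J = Cardinal.aleph 1
  ini : ∀ a : J, (Iio a).Countable

section

variable {K : Type} [LinearOrder K]

/-- `X` is cofinal in `a`. -/
def Cofin (X : Set K) (a : K) : Prop := ∀ e < a, ∃ x ∈ X, e < x ∧ x < a

/-- `a` is a limit point of `X`. -/
def Acc (X : Set K) (a : K) : Prop := (∃ x, x < a) ∧ Cofin X a

/-- `a` is a limit point of `K`. -/
def Lim (a : K) : Prop := Acc univ a

/-- `b` is a member of `X`, but not a limit point of `X`. -/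
def Nac (X : Set K) (b : K) : Prop := b ∈ X ∧ ¬ Acc X b

/-- closed unbounded subsets of `K` -/
structure Club (D : Set K) : Prop where
  unb : ∀ e, ∃ x ∈ D, e < x
  clo : ∀ a, Acc D a → a ∈ D

/-- stationary subsets of `K` -/
def Stat (S : Set K) : Prop := ∀ D, Club D → ∃ a ∈ S, a ∈ D

/-- `a` is a limit of cofinality `ω`. -/
def CofW (a : K) : Prop :=
  ∃ f : ℕ → K, StrictMono f ∧ (∀ n, f n < a) ∧ ∀ e < a, ∃ n, e < f n

/-- a coherent sequence: `C a` is closed unbounded in `a` and `C g` is an initial segment of `C a`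
for all limit points `g < a` of `C a` -/
structure Coh (C : K → Set K) : Prop where
  lt : ∀ a, Lim a → ∀ x ∈ C a, x < a
  cof : ∀ a, Lim a → Cofin (C a) a
  clo : ∀ a, Lim a → ∀ g < a, Acc (C a) g → g ∈ C a
  coh : ∀ a, Lim a → ∀ g < a, Acc (C a) g → C g = C a ∩ Iio g

/-- `T` is a thread through the sequence `C`. -/
def Thread (C : K → Set K) (T : Set K) : Prop := Club T ∧ ∀ a, Acc T a → C a = T ∩ Iio a

/-- Guessing of closed unbounded sets by the non-accumulation points, at points of cofinality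
`ω`. -/
def GuessClub (C : K → Set K) : Prop :=
  ∀ E, Club E → ∃ a, CofW a ∧ Cofin {b | Nac (C a) b ∧ b ∈ E} a

/-- The principle (P): the non-accumulation points of `C` hit the guesses of the sequence `Om`. -/
structure PP (C : K → Set K) (Om : K → Set K) : Prop where
  coh : Coh C
  hit : ∀ A E : Set K, Club E → ∃ a, Lim a ∧
    Cofin {b | Nac (C a) b ∧ b ∈ E ∧ Om b = A ∩ Iio b} a

/-- `w` is the largest element of `D` which is at most `η`. -/
def MaxLe (D : Set K) (η w : K) : Prop := w ∈ D ∧ w ≤ η ∧ ∀ d ∈ D, d ≤ η → d ≤ w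

open Classical in
/-- the sequence `C` moved down to the closed unbounded set `D` -/
noncomputable def phiD (D : Set K) (C : K → Set K) (a : K) : Set K :=
  if Acc D a then {w | ∃ η ∈ C a, MaxLe D η w} else {x | x ∈ C a ∧ ∀ d ∈ D, d < a → d < x}

/-- The element `b` of `X` is to be replaced by `f b`. -/
def Rp (f : K → K) (X : Set K) (b : K) : Prop :=
  Nac X b ∧ (∀ c ∈ X, c < b → c < f b) ∧ f b < b

/-- replacement of elements of `X` by means of `f` -/
def ci (f : K → K) (X : Set K) : Set K := {x | (x ∈ X ∧ ¬ Rp f X x) ∨ ∃ b, Rp f X b ∧ x = f b}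

end

end Pool.Agent.Lib.MP_bdcdea_lc
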