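import Pool.Agent.Lib.MP_bdcdea_lc.ClubB

set_option autoImplicit false

/-!
# Diamond, part B: the recursion
-/

namespace Pool.Agent.Lib.MP_bdcdea_lc

open Set Cardinal

theorem dia_recursion {K J I : Type} [LinearOrder K] [OmTwo K] [LinearOrder J] [OmOne J]
    {R : Set K} (P : K → Set K) (hP : ∀ a ∈ R, (P a).Countable)
    (hlt : ∀ a ∈ R, ∀ x ∈ P a, x < a) (Y : K → Set ((J × I) × K))
    (hY : ∀ Z : Set ((J × I) × K), Stat {a | a ∈ R ∧ ∀ ε < a, ∃ d ∈ P a, ∃ b ∈ P a,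
      ε < d ∧ ∀ i, ∀ x < d, (i, x) ∈ Y b ↔ (i, x) ∈ Z}) :
    ∃ Om : K → Set (I × K), ∀ A : Set (I × K),
      Stat {a | a ∈ R ∧ Om a = {p | p ∈ A ∧ p.2 < a}} := by
  by_contra hcon
  have h1 : ∀ Om : K → Set (I × K), ∃ A : Set (I × K), ∃ E : Set K, Club E ∧
      ∀ a ∈ R, a ∈ E → Om a ≠ {p | p ∈ A ∧ p.2 < a} := by
    intro Om
    by_contra hc
    refine hcon ⟨Om, fun A E hE => ?_⟩
    by_contra hn
    exact hc ⟨A, E, hE, fun a haR haE he => hn ⟨a, ⟨haR, he⟩, haE⟩⟩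
  choose AA EE hEE hAA using h1
  obtain ⟨S, hS⟩ : ∃ S : (t : J) → ((s : J) → s < t → Set (I × K)) → K → Set (I × K),
      S = fun t g a => {q | ∃ d ∈ P a, ∃ b ∈ P a,
        (∀ s (hs : s < t), ∀ i, ∀ x < d, ((s, i), x) ∈ Y b ↔ (i, x) ∈ g s hs) ∧
          q.2 < d ∧ ((t, q.1), q.2) ∈ Y b} := ⟨_, rfl⟩
  have hwf : WellFounded ((· < ·) : J → J → Prop) := (OmOne.wf (J := J)).wf
  obtain ⟨Zf, hZf⟩ : ∃ Zf : J → Set (I × K), ∀ t, Zf t = AA (S t fun s _ => Zf s) :=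
    ⟨hwf.fix fun t g => AA (S t g), fun t => hwf.fix_eq _ t⟩
  have hclub : Club (⋂ t, EE (S t fun s _ => Zf s)) := club_iInter mk_J_le _ fun t => hEE _
  obtain ⟨a, ⟨haR, ha⟩, haE⟩ := hY {q | (q.1.2, q.2) ∈ Zf q.1.1} _ hclub
  have hne : ∀ t, S t (fun s _ => Zf s) a ≠ {p | p ∈ Zf t ∧ p.2 < a} := by
    intro t
    have h2 := hAA (S t fun s _ => Zf s) a haR (mem_iInter.1 haE t)
    rwa [← hZf t] at h2
  have hcount : (⋃ p ∈ P a ×ˢ P a, {t : J | (¬ ∀ i, ∀ x < p.1, ((t, i), x) ∈ Y p.2 ↔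
      (i, x) ∈ Zf t) ∧ ∀ s < t, ∀ i, ∀ x < p.1, ((s, i), x) ∈ Y p.2 ↔
      (i, x) ∈ Zf s}).Countable := by
    refine ((hP a haR).prod (hP a haR)).biUnion fun p _ => Set.Subsingleton.countable ?_
    rintro t ⟨ht, ht'⟩ s ⟨hs, hs'⟩
    rcases lt_trichotomy t s with h | h | h
    · exact absurd (hs' t h) ht
    · exact h
    · exact absurd (ht' s h) hs
  obtain ⟨t, ht⟩ : ∃ t, t ∉ (⋃ p ∈ P a ×ˢ P a, {t : J | (¬ ∀ i, ∀ x < p.1,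
      ((t, i), x) ∈ Y p.2 ↔ (i, x) ∈ Zf t) ∧ ∀ s < t, ∀ i, ∀ x < p.1,
      ((s, i), x) ∈ Y p.2 ↔ (i, x) ∈ Zf s}) := by
    by_contra hall
    exact not_countable_J (hcount.mono fun t _ => not_not.1 fun hn => hall ⟨t, hn⟩)
  apply hne t
  rw [hS]
  ext ⟨i, x⟩
  constructor
  · rintro ⟨d, hd, b, hb, hag, hxd, hxY⟩
    have hAg : ∀ i, ∀ x < d, ((t, i), x) ∈ Y b ↔ (i, x) ∈ Zf t := by
      by_contra hn
      exact ht (mem_biUnion (x := (d, b)) (mem_prod.2 ⟨hd, hb⟩) ⟨hn, hag⟩)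
    exact ⟨(hAg i x hxd).1 hxY, lt_trans hxd (hlt a haR d hd)⟩
  · rintro ⟨hZ, hxa⟩
    obtain ⟨d, hd, b, hb, hxd, hag⟩ := ha x hxa
    exact ⟨d, hd, b, hb, fun s _ i' x' hx' => hag (s, i') x' hx', hxd, (hag (t, i) x hxd).2 hZ⟩

end Pool.Agent.Lib.MP_bdcdea_lc
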