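import Pool.Agent.Lib.MP_bdcdea_lc.DiaA
import Pool.Agent.Lib.MP_bdcdea_lc.DiaB

set_option autoImplicit false

/-!
# Diamond
-/

namespace Pool.Agent.Lib.MP_bdcdea_lc

open Set Cardinal

/-- Shelah's diamond, guessing a family of at most `ℵ₁` sets at the same time. -/
theorem diamond (hp : (2 : Cardinal.{0}) ^ Cardinal.aleph 1 = Cardinal.aleph 2)
    {K J : Type} [LinearOrder K] [OmTwo K] [LinearOrder J] [OmOne J]
    {R : Set K} (hR : Stat R) (hc : ∀ a ∈ R, CofW a)
    (I : Type) (hI : Cardinal.mk I ≤ Cardinal.aleph 1) :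
    ∃ Om : K → Set (I × K), ∀ A : Set (I × K),
      Stat {a | a ∈ R ∧ Om a = {p | p ∈ A ∧ p.2 < a}} := by
  obtain ⟨e, he⟩ := exists_onto K J
  have h1 : ∀ A B : Type, Cardinal.mk A ≤ Cardinal.aleph 1 → Cardinal.mk B ≤ Cardinal.aleph 1 →
      Cardinal.mk (A × B) ≤ Cardinal.aleph 1 := by
    intro A B hA hB
    rw [Cardinal.mk_prod, Cardinal.lift_id, Cardinal.lift_id]
    calc Cardinal.mk A * Cardinal.mk B ≤ Cardinal.aleph 1 * Cardinal.aleph 1 :=
          mul_le_mul' hA hB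
      _ = Cardinal.aleph 1 := Cardinal.mul_eq_self (Cardinal.aleph0_le_aleph 1)
  have hI' : Cardinal.mk (J × (J × I)) ≤ Cardinal.aleph 1 :=
    h1 _ _ mk_J_le (h1 _ _ mk_J_le hI)
  obtain ⟨X, hX⟩ := exists_setEnum hp K (J × (J × I)) hI'
  obtain ⟨j, hj⟩ := dia_uniform (I := J × I) he hR hc X hX
  refine dia_recursion (J := J) (I := I) (fun a => piece e a j) ?_ ?_
    (fun b => {p | ((j, p.1), p.2) ∈ X b}) ?_
  · intro a _
    have : piece e a j = (fun i => e a i) '' (Iio j) := by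
      ext x
      simp [piece]
    rw [this]
    exact (OmOne.ini j).image _
  · rintro a ha x ⟨i, _, rfl⟩
    exact (he a (hc a ha).lim.1).1 i
  · intro Z
    exact hj Z

end Pool.Agent.Lib.MP_bdcdea_lc
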