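import Pool.Agent.Lib.MP_bdcdea_lc.ClubA

set_option autoImplicit false

/-!
# Enumerations
-/

namespace Pool.Agent.Lib.MP_bdcdea_lc

open Set Cardinal

/-- `e b` is a surjection of `J` onto the initial segment below `b`, if this is not empty. -/
def Onto {K J : Type} [LinearOrder K] (e : K → J → K) : Prop :=
  ∀ b, (∃ x, x < b) → (∀ j, e b j < b) ∧ ∀ x < b, ∃ j, e b j = x

private theorem Enum_surj {α K : Type} (T : Set α) (hT : T.Nonempty)
    (h : Cardinal.mk T ≤ Cardinal.mk K) :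
    ∃ g : K → α, (∀ b, g b ∈ T) ∧ ∀ t ∈ T, ∃ b, g b = t := by
  obtain ⟨f⟩ := (Cardinal.le_def _ _).1 h
  have : Nonempty T := hT.to_subtype
  refine ⟨fun b => (Function.invFun f b : T), fun b => (Function.invFun f b).2, fun t ht => ?_⟩
  obtain ⟨b, hb⟩ := Function.invFun_surjective f.injective ⟨t, ht⟩
  exact ⟨b, congrArg Subtype.val hb⟩

theorem exists_onto (K J : Type) [LinearOrder K] [OmTwo K] [LinearOrder J] [OmOne J] :
    ∃ e : K → J → K, Onto e := by
  have h : ∀ b : K, ∃ g : J → K, (∃ x, x < b) → (∀ j, g j < b) ∧ ∀ x < b, ∃ j, g j = x := by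
    intro b
    by_cases hb : ∃ x, x < b
    · obtain ⟨g, h1, h2⟩ := Enum_surj (K := J) (Iio b) hb
        ((OmTwo.ini b).trans (OmOne.card (J := J)).ge)
      exact ⟨g, fun _ => ⟨h1, h2⟩⟩
    · exact ⟨fun _ => b, fun h => absurd h hb⟩
  choose e he using h
  exact ⟨e, he⟩

private theorem Enum_aleph {n : Cardinal.{0}} (hn : ℵ₀ ≤ n) : n * n = n :=
  Cardinal.mul_eq_self hn

private theorem Enum_union {K α : Type} [LinearOrder K] [OmTwo K] (f : K → Set α)
    (h : ∀ b, Cardinal.mk (f b) ≤ Cardinal.aleph 2) :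
    Cardinal.mk (⋃ b, f b : Set α) ≤ Cardinal.mk K := by
  refine (Cardinal.mk_iUnion_le f).trans ?_
  rw [OmTwo.card (K := K)]
  refine (mul_le_mul_right (ciSup_le' h) _).trans ?_
  rw [Enum_aleph (Cardinal.aleph0_le_aleph 2)]

/-- an enumeration of all bounded subsets of `I × K` -/
theorem exists_setEnum (hp : (2 : Cardinal.{0}) ^ Cardinal.aleph 1 = Cardinal.aleph 2)
    (K : Type) [LinearOrder K] [OmTwo K] (I : Type) (hI : Cardinal.mk I ≤ Cardinal.aleph 1) :
    ∃ X : K → Set (I × K), ∀ (Z : Set (I × K)) (d : K), ∃ b, X b = {p | p ∈ Z ∧ p.2 < d} := by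
  have hne : Nonempty K := by
    rw [← Cardinal.mk_ne_zero_iff, OmTwo.card (K := K)]
    exact (Cardinal.aleph_pos 2).ne'
  obtain ⟨d0⟩ := hne
  set T : Set (Set (I × K)) := ⋃ d : K, 𝒫 {p : I × K | p.2 < d} with hT
  have hTne : T.Nonempty := by
    refine ⟨∅, mem_iUnion.2 ⟨d0, ?_⟩⟩
    exact empty_subset _
  have hTc : Cardinal.mk T ≤ Cardinal.mk K := by
    refine Enum_union _ fun d => ?_
    rw [Cardinal.mk_powerset, ← hp]
    refine Cardinal.power_le_power_left two_ne_zero ?_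
    have h1 : {p : I × K | p.2 < d} = (univ : Set I) ×ˢ Iio d := by
      ext p
      simp
    rw [h1, Cardinal.mk_setProd, Cardinal.mk_univ]
    calc Cardinal.mk I * Cardinal.mk (Iio d) ≤ Cardinal.aleph 1 * Cardinal.aleph 1 :=
          mul_le_mul' hI (OmTwo.ini d)
      _ = Cardinal.aleph 1 := Enum_aleph (Cardinal.aleph0_le_aleph 1)
  obtain ⟨X, -, hX⟩ := Enum_surj T hTne hTc
  refine ⟨X, fun Z d => hX _ (mem_iUnion.2 ⟨d, ?_⟩)⟩
  intro p hp'
  exact hp'.2

/-- an enumeration of all pairs of a point and a set of smaller points -/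
theorem exists_node (hp : (2 : Cardinal.{0}) ^ Cardinal.aleph 1 = Cardinal.aleph 2)
    (K : Type) [LinearOrder K] [OmTwo K] :
    ∃ node : K → K × Set K, ∀ (a : K) (s : Set K), s ⊆ Iio a → ∃ x, node x = (a, s) := by
  have hne : Nonempty K := by
    rw [← Cardinal.mk_ne_zero_iff, OmTwo.card (K := K)]
    exact (Cardinal.aleph_pos 2).ne'
  obtain ⟨d0⟩ := hne
  set T : Set (K × Set K) := ⋃ a : K, ({a} : Set K) ×ˢ 𝒫 (Iio a) with hT
  have hTne : T.Nonempty := ⟨(d0, ∅), mem_iUnion.2 ⟨d0, rfl, empty_subset _⟩⟩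
  have hTc : Cardinal.mk T ≤ Cardinal.mk K := by
    refine Enum_union _ fun a => ?_
    rw [Cardinal.mk_setProd, Cardinal.mk_singleton, one_mul, Cardinal.mk_powerset, ← hp]
    exact Cardinal.power_le_power_left two_ne_zero (OmTwo.ini a)
  obtain ⟨X, -, hX⟩ := Enum_surj T hTne hTc
  exact ⟨X, fun a s hs => hX _ (mem_iUnion.2 ⟨a, rfl, hs⟩)⟩

end Pool.Agent.Lib.MP_bdcdea_lc
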