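import Pool.Agent.Lib.MP_bdcdea_lc.ClubB
import Pool.Agent.Lib.MP_bdcdea_lc.Enum

set_option autoImplicit false

/-!
# Diamond, part A: the uniform index
-/

namespace Pool.Agent.Lib.MP_bdcdea_lc

open Set Cardinal

/-- the countable piece with index `j` of the initial segment below `a` -/
def piece {K J : Type} [LinearOrder J] (e : K → J → K) (a : K) (j : J) : Set K :=
  {x | ∃ i < j, e a i = x}

theorem dia_uniform {K J I : Type} [LinearOrder K] [OmTwo K] [LinearOrder J] [OmOne J]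
    {e : K → J → K} (he : Onto e) {R : Set K} (hR : Stat R) (hc : ∀ a ∈ R, CofW a)
    (X : K → Set ((J × I) × K))
    (hX : ∀ (Z : Set ((J × I) × K)) (d : K), ∃ b, X b = {p | p ∈ Z ∧ p.2 < d}) :
    ∃ j : J, ∀ Z : Set (I × K), Stat {a | a ∈ R ∧ ∀ ε < a, ∃ d ∈ piece e a j,
      ∃ b ∈ piece e a j, ε < d ∧ ∀ i, ∀ x < d, ((j, i), x) ∈ X b ↔ (i, x) ∈ Z} := by
  by_contra hcon
  push Not at hcon
  choose Z hZ using hcon
  have hZ' : ∀ j, ∃ D : Set K, Club D ∧ ∀ a ∈ {a | a ∈ R ∧ ∀ ε < a, ∃ d ∈ piece e a j,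
      ∃ b ∈ piece e a j, ε < d ∧ ∀ i, ∀ x < d, ((j, i), x) ∈ X b ↔ (i, x) ∈ Z j}, a ∉ D := by
    intro j
    have h := hZ j
    unfold Stat at h
    push Not at h
    exact h
  choose D hD hDn using hZ'
  choose z hz using hX {p : (J × I) × K | (p.1.2, p.2) ∈ Z p.1.1}
  obtain ⟨a, haR, haD, haz⟩ := hR _ ((club_iInter mk_J_le D hD).inter (club_closed z))
  obtain ⟨f, -, hfa, hf⟩ := hc a haR
  obtain ⟨-, hon⟩ := he a ⟨f 0, hfa 0⟩
  have h1 : ∀ n, ∃ i, e a i = f n := fun n => hon _ (hfa n)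
  have h2 : ∀ n, ∃ i, e a i = z (f n) := fun n => hon _ (haz _ (hfa n))
  choose i₁ hi₁ using h1
  choose i₂ hi₂ using h2
  obtain ⟨j, hj⟩ := exists_bdJ (range i₁ ∪ range i₂)
    ((countable_range i₁).union (countable_range i₂))
  refine hDn j a ⟨haR, fun ε hε => ?_⟩ (mem_iInter.1 haD j)
  obtain ⟨n, hn⟩ := hf ε hε
  refine ⟨f n, ⟨i₁ n, hj _ (Or.inl ⟨n, rfl⟩), hi₁ n⟩, z (f n),
    ⟨i₂ n, hj _ (Or.inr ⟨n, rfl⟩), hi₂ n⟩, hn, fun i x hx => ?_⟩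
  rw [hz (f n)]
  constructor
  · exact fun h => h.1
  · exact fun h => ⟨h, hx⟩

end Pool.Agent.Lib.MP_bdcdea_lc
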