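import Pool.Agent.Lib.MP_bdcdea_lc.ClubB

set_option autoImplicit false

/-!
# The second alternative, part 2: the rank
-/

namespace Pool.Agent.Lib.MP_bdcdea_lc

open Set Cardinal

/-- a countable set of points has only countably many limit points below its supremum -/
theorem countable_acc {K : Type} [LinearOrder K] [OmTwo K] {Z : Set K} (hZ : Z.Countable)
    {a : K} (ha : Cofin Z a) : {g | g < a ∧ Acc Z g}.Countable := by
  classical
  haveI : Nonempty K := ⟨a⟩
  have h1 : ∀ g ∈ {g | g < a ∧ Acc Z g}, ∃ m ∈ Z, g ≤ m ∧ ∀ x ∈ Z, g ≤ x → m ≤ x := by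
    intro g hg
    obtain ⟨x, hx, hgx, _⟩ := ha g hg.1
    obtain ⟨m, hm, hmin⟩ := exists_least (s := {z | z ∈ Z ∧ g ≤ z}) ⟨x, hx, hgx.le⟩
    exact ⟨m, hm.1, hm.2, fun y hy hgy => hmin y ⟨hy, hgy⟩⟩
  choose! z hzZ hz hzmin using h1
  have key : ∀ g ∈ {g | g < a ∧ Acc Z g}, ∀ g' ∈ {g | g < a ∧ Acc Z g}, g < g' →
      z g < z g' := by
    intro g hg g' hg' hlt
    obtain ⟨x, hx, hgx, hxg⟩ := hg'.2.2 g hlt
    exact ((hzmin g hg x hx hgx.le).trans_lt hxg).trans_le (hz g' hg')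
  refine Set.MapsTo.countable_of_injOn (f := z) (t := Z) (fun g hg => hzZ g hg) ?_ hZ
  intro g hg g' hg' he
  rcases lt_trichotomy g g' with h | h | h
  · exact absurd he (key g hg g' hg' h).ne
  · exact h
  · exact absurd he.symm (key g' hg' g hg h).ne

/-- the rank function -/
private theorem rank_fun {K J : Type} [LinearOrder K] [OmTwo K] [LinearOrder J] [OmOne J]
    {C : K → Set K} {T : Set K}
    (hc : ∀ a ∈ T, {g | g ∈ T ∧ g < a ∧ Acc (C a) g}.Countable) :
    ∃ rk : K → J, ∀ a ∈ T, ∀ g ∈ T, g < a → Acc (C a) g → rk g < rk a := by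
  classical
  obtain ⟨j0, _⟩ := exists_bdJ (J := J) (∅ : Set J) Set.countable_empty
  have hwf : WellFounded (fun x y : K => x < y) := (OmTwo.wf (K := K)).wf
  let F : ∀ a : K, (∀ g : K, g < a → J) → J := fun a ih =>
    if h : {j : J | ∃ g, ∃ hg : g < a, g ∈ T ∧ Acc (C a) g ∧ ih g hg = j}.Countable then
      (exists_bdJ _ h).choose else j0
  refine ⟨hwf.fix F, fun a ha g hg hga hacc => ?_⟩
  have he : hwf.fix F a = F a (fun g _ => hwf.fix F g) := hwf.fix_eq F a
  have hcount : {j : J | ∃ g, ∃ _ : g < a, g ∈ T ∧ Acc (C a) g ∧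
      hwf.fix F g = j}.Countable := by
    refine ((hc a ha).image (hwf.fix F)).mono ?_
    rintro j ⟨g, hg1, hg2, hg3, rfl⟩
    exact ⟨g, ⟨hg2, hg1, hg3⟩, rfl⟩
  have he2 : hwf.fix F a = (exists_bdJ _ hcount).choose := by
    rw [he]
    exact dif_pos hcount
  rw [he2]
  exact (exists_bdJ _ hcount).choose_spec _ ⟨g, hga, hg, hacc, rfl⟩

/-- If the limit points of `C a` in `T` are countably many for `a ∈ T`, then there is a
stationary subset of `T` which has at most one point in the limit points of every `C d`. -/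
theorem exists_rank {K J : Type} [LinearOrder K] [OmTwo K] [LinearOrder J] [OmOne J]
    {C : K → Set K} (hC : Coh C) {T : Set K} (hT : Stat T) (hl : ∀ a ∈ T, Lim a)
    (hc : ∀ a ∈ T, {g | g ∈ T ∧ g < a ∧ Acc (C a) g}.Countable) :
    ∃ R ⊆ T, Stat R ∧ ∀ d, Lim d → ∀ a ∈ R, ∀ b ∈ R, a < d → b < d → Acc (C d) a →
      Acc (C d) b → a = b := by
  obtain ⟨rk, hrk⟩ := rank_fun (J := J) (C := C) hc
  have hU : Stat (⋃ r : J, {a | a ∈ T ∧ rk a = r}) :=
    hT.mono fun a ha => Set.mem_iUnion.2 ⟨rk a, ha, rfl⟩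
  obtain ⟨r, hr⟩ := stat_iUnion (mk_J_le (J := J)) _ hU
  have key : ∀ d, Lim d → ∀ a, a ∈ T ∧ rk a = r → ∀ b, b ∈ T ∧ rk b = r → b < d →
      Acc (C d) a → Acc (C d) b → ¬ a < b := by
    intro d hd a ha b hb hbd haa hab hlt
    have h1 : C b = C d ∩ Iio b := hC.coh d hd b hbd hab
    have h2 : Acc (C b) a := by
      rw [h1]
      exact (acc_inter_Iio hlt.le).2 haa
    have h3 := hrk b hb.1 a ha.1 hlt h2
    rw [ha.2, hb.2] at h3
    exact lt_irrefl _ h3
  refine ⟨{a | a ∈ T ∧ rk a = r}, fun a ha => ha.1, hr, ?_⟩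
  intro d hd a ha b hb had hbd haa hab
  rcases lt_trichotomy a b with h | h | h
  · exact absurd h (key d hd a ha b hb hbd haa hab)
  · exact h
  · exact absurd h (key d hd b hb a ha had hab haa)

end Pool.Agent.Lib.MP_bdcdea_lc
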