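import Pool.Agent.Lib.MP_bdcdea_lc.Fin
import Pool.Agent.Lib.MP_bdcdea_lc.Rank

set_option autoImplicit false

/-!
# The second alternative, part 3
-/

namespace Pool.Agent.Lib.MP_bdcdea_lc

open Set Cardinal

theorem dich {K J : Type} [LinearOrder K] [OmTwo K] [LinearOrder J] [OmOne J]
    {C : K → Set K} (hC : Coh C) (hG : GuessClub C) {e : K → J → K} (he : Onto e)
    {B : Set K} (hB : Stat B)
    (hf : ∀ i a, Lim a → ¬ Cofin {x | Nac (ci (fun b => e b i) (C a)) x ∧ x ∈ B} a) :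
    ∃ R, Stat R ∧ (∀ a ∈ R, CofW a) ∧ ∀ d, Lim d → ∀ a ∈ R, ∀ b ∈ R, a < d → b < d →
      Acc (C d) a → Acc (C d) b → a = b := by
  obtain ⟨i, hT⟩ := exists_index hC hG he hB
  obtain ⟨R, hRT, hR, hu⟩ := exists_rank (J := J) hC hT (fun a ha => ha.1.lim) (by
    intro a ha
    refine (countable_acc (countable_zib hC hf i ha.1.lim) ha.2).mono ?_
    rintro g ⟨hg, hga, hacc⟩
    refine ⟨hga, hacc.1, ?_⟩
    have h := hg.2
    rw [zib_inter hC e B i ha.1.lim hga hacc] at h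
    exact h.mono inter_subset_left)
  exact ⟨R, hR, fun a ha => (hRT ha).1, hu⟩

end Pool.Agent.Lib.MP_bdcdea_lc
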