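import Pool.Agent.Lib.MP_bdcdea_lc.ClubB

set_option autoImplicit false

/-!
# A sequence without a thread avoids many points of every closed unbounded set
-/

namespace Pool.Agent.Lib.MP_bdcdea_lc

open Set Cardinal

theorem exists_good {K : Type} [LinearOrder K] [OmTwo K] {C : K → Set K} (hC : Coh C)
    (hT : ¬ ∃ T, Thread C T) {D : Set K} (hD : Club D) :
    ∃ a, CofW a ∧ Acc D a ∧ Cofin {x | x ∈ D ∧ ¬ Acc (C a) x} a := by
  by_contra hcon
  have h1 : ∀ a, ∃ e, CofW a → Acc D a →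
      e < a ∧ ∀ x ∈ D, e < x → x < a → Acc (C a) x := by
    intro a
    by_cases h : CofW a ∧ Acc D a
    · have h2 : ¬ Cofin {x | x ∈ D ∧ ¬ Acc (C a) x} a := fun h3 => hcon ⟨a, h.1, h.2, h3⟩
      unfold Cofin at h2
      push Not at h2
      obtain ⟨e, he, h4⟩ := h2
      refine ⟨e, fun _ _ => ⟨he, fun x hx h5 h6 => ?_⟩⟩
      by_contra h7
      exact absurd h6 (not_lt.mpr (h4 x ⟨hx, h7⟩ h5))
    · exact ⟨a, fun h2 h3 => absurd ⟨h2, h3⟩ h⟩
  choose f hf using h1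
  have hS : Stat ({a : K | CofW a} ∩ {a | Acc D a}) := stat_cofW.inter_club (club_acc hD.unb)
  obtain ⟨e, he⟩ := fodor hS f (fun a ha => (hf a ha.1 ha.2).1)
  have hstar : ∀ d ∈ D, e < d → ∀ a, CofW a → Acc D a → f a = e → d < a →
      Acc (C a) d ∧ C d = C a ∩ Iio d := by
    intro d hd hed a ha ha' hfa hda
    have h2 : Acc (C a) d := (hf a ha ha').2 d hd (by rw [hfa]; exact hed) hda
    exact ⟨h2, hC.coh a ha.lim d hda h2⟩
  have hup : ∀ g, ∃ a, CofW a ∧ Acc D a ∧ f a = e ∧ g < a := by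
    intro g
    obtain ⟨a, ha, hga⟩ := he.unb g
    exact ⟨a, ha.1.1, ha.1.2, ha.2, hga⟩
  have hlim : ∀ d ∈ D, e < d → Lim d := by
    intro d hd hed
    obtain ⟨a, ha, ha', hfa, hda⟩ := hup d
    exact (hstar d hd hed a ha ha' hfa hda).1.lim
  have hagree : ∀ d ∈ D, e < d → ∀ d' ∈ D, d < d' → C d = C d' ∩ Iio d := by
    intro d hd hed d' hd' hdd
    obtain ⟨a, ha, ha', hfa, hda⟩ := hup d'
    rw [(hstar d hd hed a ha ha' hfa (hdd.trans hda)).2,
      (hstar d' hd' (hed.trans hdd) a ha ha' hfa hda).2]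
    ext x
    constructor
    · rintro ⟨h2, h3⟩
      exact ⟨⟨h2, lt_trans h3 hdd⟩, h3⟩
    · rintro ⟨⟨h2, _⟩, h3⟩
      exact ⟨h2, h3⟩
  have hTd : ∀ d ∈ D, e < d → ∀ x < d, x ∈ {x | ∃ d ∈ D, e < d ∧ x ∈ C d} ↔ x ∈ C d := by
    intro d hd hed x hx
    constructor
    · rintro ⟨d', hd', hed', hxd'⟩
      rcases lt_trichotomy d d' with h | h | h
      · rw [hagree d hd hed d' hd' h]
        exact ⟨hxd', hx⟩
      · rw [h]
        exact hxd'
      · rw [hagree d' hd' hed' d hd h] at hxd'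
        exact hxd'.1
    · intro h
      exact ⟨d, hd, hed, h⟩
  have hacc : ∀ g, Acc {x | ∃ d ∈ D, e < d ∧ x ∈ C d} g → ∃ d ∈ D, e < d ∧ g < d ∧
      Acc (C d) g := by
    intro g hg
    obtain ⟨d, hd, h⟩ := hD.unb (max e g)
    have hed : e < d := (le_max_left e g).trans_lt h
    have hgd : g < d := (le_max_right e g).trans_lt h
    exact ⟨d, hd, hed, hgd,
      (acc_congr (fun x hx => hTd d hd hed x (lt_trans hx hgd)) le_rfl).mp hg⟩
  refine hT ⟨{x | ∃ d ∈ D, e < d ∧ x ∈ C d}, ⟨?_, ?_⟩, ?_⟩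
  · intro y
    obtain ⟨d, hd, h⟩ := hD.unb (max e y)
    have hed : e < d := (le_max_left e y).trans_lt h
    have hyd : y < d := (le_max_right e y).trans_lt h
    obtain ⟨x, hx, h1, _⟩ := hC.cof d (hlim d hd hed) y hyd
    exact ⟨x, ⟨d, hd, hed, hx⟩, h1⟩
  · intro g hg
    obtain ⟨d, hd, hed, hgd, h3⟩ := hacc g hg
    exact ⟨d, hd, hed, hC.clo d (hlim d hd hed) g hgd h3⟩
  · intro g hg
    obtain ⟨d, hd, hed, hgd, h3⟩ := hacc g hg
    rw [hC.coh d (hlim d hd hed) g hgd h3]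
    ext x
    constructor
    · rintro ⟨h4, h5⟩
      exact ⟨⟨d, hd, hed, h4⟩, h5⟩
    · rintro ⟨h4, h5⟩
      exact ⟨(hTd d hd hed x (lt_trans h5 hgd)).mp h4, h5⟩

end Pool.Agent.Lib.MP_bdcdea_lc
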