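import Pool.Agent.Lib.MP_bdcdea_lc.PhiD
import Pool.Agent.Lib.MP_bdcdea_lc.Good

set_option autoImplicit false

/-!
# Club guessing by the non-accumulation points
-/

namespace Pool.Agent.Lib.MP_bdcdea_lc

open Set Cardinal

theorem exists_guess {K J : Type} [LinearOrder K] [OmTwo K] [LinearOrder J] [OmOne J]
    {C : K → Set K} (hC : Coh C) (hT : ¬ ∃ T, Thread C T) :
    ∃ D, Club D ∧ GuessClub (phiD D C) := by
  by_contra hcon
  have h1 : ∀ D : Set K, ∃ E : Set K, Club E ∧ (Club D → ∀ a, CofW a →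
      ¬ Cofin {b | Nac (phiD D C a) b ∧ b ∈ E} a) := by
    intro D
    by_cases hD : Club D
    · have h2 : ¬ GuessClub (phiD D C) := fun h => hcon ⟨D, hD, h⟩
      unfold GuessClub at h2
      push Not at h2
      obtain ⟨E, hE, h3⟩ := h2
      exact ⟨E, hE, fun _ => h3⟩
    · exact ⟨univ, club_univ, fun h => absurd h hD⟩
  choose E hE1 hE2 using h1
  have hwf : WellFoundedLT J := OmOne.wf
  -- the decreasing sequence
  obtain ⟨Df, hDf⟩ : ∃ Df : J → Set K, ∀ i, Df i =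
      ⋂ j : {j : J // j < i}, (Df j.1 ∩ E (Df j.1)) :=
    ⟨hwf.wf.fix (fun i ih => ⋂ j : {j : J // j < i}, (ih j.1 j.2 ∩ E (ih j.1 j.2))),
      fun i => hwf.wf.fix_eq _ i⟩
  have hmem : ∀ (i j : J), j < i → Df i ⊆ Df j ∩ E (Df j) := by
    intro i j hji x hx
    rw [hDf i, mem_iInter] at hx
    exact hx ⟨j, hji⟩
  have hanti : ∀ (i j : J), j ≤ i → Df i ⊆ Df j := by
    intro i j hji
    rcases hji.lt_or_eq with h | h
    · exact fun x hx => (hmem i j h hx).1
    · rw [h]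
  have hclub : ∀ i, Club (Df i) := by
    intro i
    induction i using hwf.wf.induction with
    | _ i ih =>
      rw [hDf i]
      refine club_iInter ((mk_subtype_le _).trans mk_J_le) _ fun j => ?_
      exact (ih j.1 j.2).inter (hE1 _)
  have hDs : Club (⋂ i, Df i) := club_iInter mk_J_le Df hclub
  obtain ⟨a, haW, haA, haC⟩ := exists_good hC hT hDs
  obtain ⟨f, hf1, hf2, hf3⟩ := haW.exists_seq haC
  have hlim := haW.lim
  have hfD : ∀ n i, f n ∈ Df i := fun n i => mem_iInter.1 (hf2 n).1.1 i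
  -- the next elements of `C a`
  have h2 : ∀ n, ∃ h ∈ {x | x ∈ C a ∧ f n ≤ x}, ∀ x ∈ {x | x ∈ C a ∧ f n ≤ x}, h ≤ x := by
    intro n
    obtain ⟨x, hx1, hx2, -⟩ := hC.cof a hlim (f n) (hf2 n).2
    exact exists_least ⟨x, hx1, hx2.le⟩
  choose h hh1 hh2 using h2
  have hlt : ∀ n, h n < a := fun n => hC.lt a hlim _ (hh1 n).1
  have h3 : ∀ (i : J) (n : ℕ), ∃ w, MaxLe (Df i) (h n) w := fun i n =>
    exists_maxLe (fun b _ hb => (hclub i).clo b hb) ⟨f n, hfD n i, (hh1 n).2⟩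
  choose w hw using h3
  have hfw : ∀ i n, f n ≤ w i n := fun i n => (hw i n).2.2 _ (hfD n i) (hh1 n).2
  have hwlt : ∀ i n, w i n < a := fun i n => (hw i n).2.1.trans_lt (hlt n)
  have haD : ∀ i, Acc (Df i) a := fun i => haA.mono (iInter_subset _ i)
  have hnac : ∀ i n, Nac (phiD (Df i) C a) (w i n) := by
    intro i n
    constructor
    · unfold phiD
      rw [if_pos (haD i)]
      exact ⟨h n, (hh1 n).1, hw i n⟩
    · intro hacc
      have h4 := (acc_phiD hC (hclub i) (haD i) (hwlt i n).le hacc).1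
      have h5 : w i n ≤ f n := by
        by_contra h6
        obtain ⟨x, hx1, hx2, hx3⟩ := h4.2 (f n) (not_le.1 h6)
        have h7 := hh2 n x ⟨hx1, hx2.le⟩
        exact absurd (hx3.trans_le (hw i n).2.1) (not_lt.2 h7)
      rw [le_antisymm h5 (hfw i n)] at h4
      exact (hf2 n).1.2 h4
  have hwanti : ∀ (i j : J) (n : ℕ), j ≤ i → w i n ≤ w j n := fun i j n hji =>
    (hw j n).2.2 _ (hanti i j hji (hw i n).1) (hw i n).2.1
  have hJ : Nonempty J := by
    by_contra hne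
    rw [not_nonempty_iff] at hne
    exact not_countable_J (J := J) (by rw [univ_eq_empty_iff.2 hne]; exact countable_empty)
  have h8 : ∀ n, ∃ i₀ : J, ∀ i, i₀ ≤ i → w i n = w i₀ n := by
    intro n
    obtain ⟨m, ⟨i₀, rfl⟩, hm⟩ := exists_least (s := range fun i => w i n)
      ⟨w hJ.some n, ⟨hJ.some, rfl⟩⟩
    exact ⟨i₀, fun i hi => le_antisymm (hwanti i i₀ n hi) (hm _ ⟨i, rfl⟩)⟩
  choose i₀ hi₀ using h8
  obtain ⟨b, hb⟩ := exists_bdJ (range i₀) (countable_range i₀)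
  obtain ⟨b', hb', -⟩ := exists_succJ b
  refine hE2 (Df b) (hclub b) a haW fun e he => ?_
  obtain ⟨n, hn⟩ := hf3 e he
  refine ⟨w b n, ⟨hnac b n, ?_⟩, hn.trans_le (hfw b n), hwlt b n⟩
  have h9 : w b n = w b' n := by
    rw [hi₀ n b (hb _ ⟨n, rfl⟩).le, hi₀ n b' ((hb _ ⟨n, rfl⟩).trans hb').le]
  rw [h9]
  exact (hmem b' b hb' (hw b' n).1).2

end Pool.Agent.Lib.MP_bdcdea_lc
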