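import Pool.Agent.Lib.MP_bdcdea_lc.Dia
import Pool.Agent.Lib.MP_bdcdea_lc.Guess
import Pool.Agent.Lib.MP_bdcdea_lc.Dich
import Pool.Agent.Lib.MP_bdcdea_lc.AltTwo

set_option autoImplicit false

/-!
# The principle (P)
-/

namespace Pool.Agent.Lib.MP_bdcdea_lc

open Set Cardinal

theorem exists_PP (hp : (2 : Cardinal.{0}) ^ Cardinal.aleph 1 = Cardinal.aleph 2)
    {K J : Type} [LinearOrder K] [OmTwo K] [LinearOrder J] [OmOne J]
    {C : K → Set K} (hC : Coh C) (hT : ¬ ∃ T, Thread C T) :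
    ∃ C' Om : K → Set K, PP C' Om := by
  obtain ⟨D, hD, hG⟩ := exists_guess (J := J) hC hT
  have hC1 : Coh (phiD D C) := coh_phiD hC hD
  obtain ⟨e, he⟩ := exists_onto K J
  obtain ⟨Om, hOm⟩ := diamond (J := J) hp (R := {a : K | CofW a}) stat_cofW (fun a h => h)
    J mk_J_le
  by_cases h : ∃ i, PP (fun a => ci (fun b => e b i) (phiD D C a)) (fun b => {x | (i, x) ∈ Om b})
  · obtain ⟨i, hi⟩ := h
    exact ⟨_, _, hi⟩
  · have h2 : ∀ i : J, ∃ A E : Set K, Club E ∧ ∀ a, Lim a →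
        ¬ Cofin {b | Nac (ci (fun b => e b i) (phiD D C a)) b ∧ b ∈ E ∧
          {x | (i, x) ∈ Om b} = A ∩ Iio b} a := by
      intro i
      by_contra hcon
      push Not at hcon
      exact h ⟨i, coh_ci hC1 _, hcon⟩
    choose A E hE hno using h2
    have hEE : Club (⋂ i, E i) := club_iInter mk_J_le E hE
    have hB : Stat ({a | a ∈ {a : K | CofW a} ∧ Om a = {p | p ∈ {q : J × K | q.2 ∈ A q.1} ∧
        p.2 < a}} ∩ ⋂ i, E i) := (hOm _).inter_club hEE
    obtain ⟨R, hR, hRc, hu⟩ := dich hC1 hG he hB (by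
      intro i a ha hco
      refine hno i a ha (hco.mono ?_)
      rintro x ⟨hx1, ⟨_, hx2⟩, hx3⟩
      refine ⟨hx1, mem_iInter.1 hx3 i, ?_⟩
      ext y
      simp only [mem_ofPred_eq, hx2, mem_inter_iff, mem_Iio])
    obtain ⟨Om1, hOm1⟩ := diamond (J := J) hp (R := {a : K | CofW a}) stat_cofW (fun a h => h)
      Unit (by
        rw [Cardinal.mk_eq_one]
        exact Cardinal.one_le_aleph0.trans (Cardinal.aleph0_le_aleph 1))
    obtain ⟨Th, hTh⟩ := diamond (J := J) hp hR hRc Bool (by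
      rw [Cardinal.mk_bool]
      exact (Cardinal.natCast_lt_aleph0 (n := 2)).le.trans (Cardinal.aleph0_le_aleph 1))
    obtain ⟨C', hC'⟩ := altTwo hC1 hRc hu (Om := fun b => {x | ((), x) ∈ Om1 b})
      (Ta := fun d => {x | (true, x) ∈ Th d}) (Te := fun d => {x | (false, x) ∈ Th d}) (by
        intro A
        refine (hOm1 {p | p.2 ∈ A}).mono ?_
        rintro b ⟨_, hb⟩
        ext x
        simp only [mem_ofPred_eq, hb, mem_inter_iff, mem_Iio]) (by
        intro A E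
        refine (hTh {p | (p.1 = true ∧ p.2 ∈ A) ∨ (p.1 = false ∧ p.2 ∈ E)}).mono ?_
        rintro d ⟨hdR, hd⟩
        refine ⟨hdR, ?_, ?_⟩
        · ext x
          simp [hd]
        · ext x
          simp [hd])
    exact ⟨C', _, hC'⟩

end Pool.Agent.Lib.MP_bdcdea_lc
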