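import Pool.Agent.Lib.MP_bdcdea_lc.PhiI
import Pool.Agent.Lib.MP_bdcdea_lc.Enum

set_option autoImplicit false

/-!
# The second alternative, part 1: finite fibres and a countable cofinal set
-/

namespace Pool.Agent.Lib.MP_bdcdea_lc

open Set Cardinal

variable {K J : Type} [LinearOrder K] [OmTwo K] [LinearOrder J] [OmOne J]

/-- the points of `C a` which are replaced with index `i` by a point of `B` -/
def Fib (C : K → Set K) (e : K → J → K) (B : Set K) (i : J) (a : K) : Set K :=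
  {b | Rp (fun x => e x i) (C a) b ∧ e b i ∈ B}

/-- the points of `C a` which are replaced with some index below `i` by a point of `B` -/
def Zib (C : K → Set K) (e : K → J → K) (B : Set K) (i : J) (a : K) : Set K :=
  {b | ∃ j < i, b ∈ Fib C e B j a}

private theorem Fin_seq {F : Set K} (hF : F.Infinite) :
    ∃ h : ℕ → K, StrictMono h ∧ ∀ n, h n ∈ F := by
  set f : ℕ ↪ F := hF.natEmbedding with hfdef
  obtain ⟨g, hg | hg⟩ :=
    exists_increasing_or_nonincreasing_subseq (fun x y : K => x < y) (fun n => (f n : K))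
  · exact ⟨fun n => (f (g n) : K), fun m n hmn => hg m n hmn, fun n => (f (g n)).2⟩
  · exfalso
    obtain ⟨m, ⟨n, rfl⟩, hm⟩ := exists_least (K := K) (s := Set.range fun n => (f (g n) : K))
      ⟨_, 0, rfl⟩
    have h1 := hm _ ⟨n + 1, rfl⟩
    have h2 := hg n (n + 1) (Nat.lt_succ_self n)
    have h3 : (f (g n) : K) = (f (g (n + 1)) : K) := le_antisymm h1 (not_lt.1 h2)
    have h4 : g n = g (n + 1) := f.injective (Subtype.ext h3)
    have h5 : g n < g (n + 1) := g.strictMono (Nat.lt_succ_self n)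
    omega

theorem finite_fib {C : K → Set K} (hC : Coh C) {e : K → J → K} {B : Set K} {i : J}
    (hf : ∀ a, Lim a → ¬ Cofin {x | Nac (ci (fun b => e b i) (C a)) x ∧ x ∈ B} a)
    {a : K} (ha : Lim a) : (Fib C e B i a).Finite := by
  by_contra hinf
  obtain ⟨h, hmono, hmem⟩ := Fin_seq hinf
  obtain ⟨g, hg1, hg2⟩ := exists_limit h hmono
  have hCa : ∀ n, h n ∈ C a := fun n => (hmem n).1.1.1
  have hga : g ≤ a := by
    by_contra h1
    obtain ⟨n, hn⟩ := hg2 a (not_le.1 h1)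
    exact lt_irrefl _ (hn.trans (hC.lt a ha _ (hCa n)))
  have hacc : Acc (C a) g := ⟨⟨h 0, hg1 0⟩, fun ε hε => by
    obtain ⟨n, hn⟩ := hg2 ε hε
    exact ⟨h n, hCa n, hn, hg1 n⟩⟩
  refine hf g hacc.lim fun ε hε => ?_
  obtain ⟨n, hn⟩ := hg2 ε hε
  have hrp := (hmem (n + 1)).1
  have h1 : h n < e (h (n + 1)) i := hrp.2.1 (h n) (hCa n) (hmono (Nat.lt_succ_self n))
  have h2 : e (h (n + 1)) i < h (n + 1) := hrp.2.2
  have h3 : Nac (ci (fun b => e b i) (C a)) (e (h (n + 1)) i) :=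
    nac_ci hC (fun b => e b i) ha hrp
  refine ⟨e (h (n + 1)) i, ⟨?_, (hmem (n + 1)).2⟩, hn.trans h1, h2.trans (hg1 _)⟩
  rcases hga.eq_or_lt with h4 | h4
  · rw [h4]
    exact h3
  · rw [hC.coh a ha g h4 hacc, ci_inter _ _ hacc]
    exact (nac_inter_Iio (h2.trans (hg1 _))).2 h3

theorem countable_zib {C : K → Set K} (hC : Coh C) {e : K → J → K} {B : Set K}
    (hf : ∀ i a, Lim a → ¬ Cofin {x | Nac (ci (fun b => e b i) (C a)) x ∧ x ∈ B} a)
    (i : J) {a : K} (ha : Lim a) : (Zib C e B i a).Countable := by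
  have h : Zib C e B i a = ⋃ j ∈ Iio i, Fib C e B j a := by
    ext b
    simp [Zib]
  rw [h]
  exact (OmOne.ini i).biUnion fun j _ => (finite_fib hC (hf j) ha).countable

theorem zib_inter {C : K → Set K} (hC : Coh C) (e : K → J → K) (B : Set K) (i : J)
    {a g : K} (ha : Lim a) (hg : g < a) (h : Acc (C a) g) :
    Zib C e B i g = Zib C e B i a ∩ Iio g := by
  have hCg := hC.coh a ha g hg h
  ext b
  constructor
  · rintro ⟨j, hj, h1, h2⟩
    have hb : b < g := by
      have h3 := h1.1.1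
      rw [hCg] at h3
      exact h3.2
    rw [hCg] at h1
    exact ⟨⟨j, hj, (rp_inter_Iio _ _ hb).1 h1, h2⟩, hb⟩
  · rintro ⟨⟨j, hj, h1, h2⟩, hb⟩
    refine ⟨j, hj, ?_, h2⟩
    rw [hCg]
    exact (rp_inter_Iio _ _ hb).2 h1

/-- for one index, the countable sets are cofinal stationarily often -/
theorem exists_index {C : K → Set K} (hC : Coh C) (hG : GuessClub C) {e : K → J → K}
    (he : Onto e) {B : Set K} (hB : Stat B) :
    ∃ i : J, Stat {a | CofW a ∧ Cofin (Zib C e B i a) a} := by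
  have hD : Club {a : K | Acc B a} := club_acc hB.unb
  have hst : Stat (⋃ i : J, {a | CofW a ∧ Cofin (Zib C e B i a) a}) := by
    intro E hE
    obtain ⟨a, haw, hac⟩ := hG _ (hD.inter hE)
    have hlim : Lim a := haw.lim
    have haE : a ∈ E := hE.clo a ⟨hlim.1, hac.mono fun b hb => hb.2.2⟩
    refine ⟨a, ?_, haE⟩
    have hcof : Cofin {b | Nac (C a) b ∧ ∃ j, b ∈ Fib C e B j a} a := by
      intro ε hε
      obtain ⟨b, ⟨hb1, hb2, -⟩, hb3, hb4⟩ := hac ε hε
      refine ⟨b, ⟨hb1, ?_⟩, hb3, hb4⟩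
      have hb2' : Acc B b := hb2
      have hnc : ¬ Cofin (C a) b := fun h => hb1.2 ⟨hb2'.1, h⟩
      unfold Cofin at hnc
      push Not at hnc
      obtain ⟨u, hu, hu'⟩ := hnc
      obtain ⟨x, hxB, hux, hxb⟩ := hb2'.2 u hu
      obtain ⟨j, hj⟩ := (he b hb2'.1).2 x hxb
      refine ⟨j, ⟨hb1, fun c hc hcb => ?_, ?_⟩, ?_⟩
      · change c < e b j
        rw [hj]
        by_contra h1
        exact absurd hcb (not_lt.2 (hu' c hc (hux.trans_le (not_lt.1 h1))))
      · change e b j < b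
        rw [hj]
        exact hxb
      · rw [hj]
        exact hxB
    obtain ⟨f, hf1, hf2, hf3⟩ := haw.exists_seq hcof
    choose j hj using fun n => (hf2 n).1.2
    obtain ⟨i, hi⟩ := exists_bdJ (Set.range j) (Set.countable_range j)
    refine mem_iUnion.2 ⟨i, haw, fun ε hε => ?_⟩
    obtain ⟨n, hn⟩ := hf3 ε hε
    exact ⟨f n, ⟨j n, hi _ ⟨n, rfl⟩, hj n⟩, hn, (hf2 n).2⟩
  exact stat_iUnion mk_J_le _ hst

end Pool.Agent.Lib.MP_bdcdea_lc
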