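import Mathlib

set_option autoImplicit false

/-!
# The statement of the problem MP_bdcdea_lc in terms of ordinals
-/

namespace Pool.Agent.Lib.MP_bdcdea_lc

open Set

/-- `a` is an accumulation point of `X`: `a` is not zero and `X` has elements between every
ordinal below `a` and `a`. -/
def IsAccum (X : Set Ordinal.{0}) (a : Ordinal.{0}) : Prop :=
  0 < a ∧ ∀ b < a, ∃ c ∈ X, b < c ∧ c < a

/-- `X` is a closed unbounded subset of the ordinal `a`: it is a subset of `a`, every ordinal
below `a` is at most some element of `X`, and the accumulation points of `X` below `a`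
belong to `X`. -/
structure IsClubIn (X : Set Ordinal.{0}) (a : Ordinal.{0}) : Prop where
  sub : X ⊆ Iio a
  unbounded : ∀ b < a, ∃ c ∈ X, b ≤ c
  closed : ∀ b < a, IsAccum X b → b ∈ X

/-- `C` is a square sequence at the cardinal `κ`. -/
structure IsSquareSeq (κ : Cardinal.{0}) (C : Ordinal.{0} → Set Ordinal.{0}) : Prop where
  club : ∀ a < κ.ord, IsClubIn (C a) a
  succ : ∀ b, Order.succ b < κ.ord → C (Order.succ b) = {b}
  coherent : ∀ a < κ.ord, ∀ b < a, IsAccum (C a) b → C b = C a ∩ Iio b
  noThread : ¬ ∃ D, IsClubIn D κ.ord ∧ ∀ a < κ.ord, IsAccum D a → D ∩ Iio a = C a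

/-- The principle `□(κ)`. -/
def SquareAt (κ : Cardinal.{0}) : Prop := ∃ C, IsSquareSeq κ C

/-- The partial order `T` is a `κ`-Souslin tree: the set of predecessors of every element is
isomorphic to an ordinal smaller than `κ` (the height of the element), every ordinal smaller
than `κ` is the height of some element, there is no chain of size `κ` and no antichain of size
`κ`. -/
structure IsSouslinTree (κ : Cardinal.{0}) (T : Type) [PartialOrder T] : Prop where
  height_lt : ∀ t : T, ∃ a < κ.ord, Nonempty (Iio t ≃o Iio a)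
  exists_height : ∀ a < κ.ord, ∃ t : T, Nonempty (Iio t ≃o Iio a)
  chain : ¬ ∃ s : Set T, IsChain (· ≤ ·) s ∧ Cardinal.mk s = κ
  antichain : ¬ ∃ s : Set T, IsAntichain (· ≤ ·) s ∧ Cardinal.mk s = κ

end Pool.Agent.Lib.MP_bdcdea_lc
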