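import Pool.Agent.Lib.MP_bdcdea_lc.ClubA
import Pool.Agent.Lib.MP_bdcdea_lc.Statement

set_option autoImplicit false

/-!
# Translation between ordinals and well-ordered types
-/

namespace Pool.Agent.Lib.MP_bdcdea_lc

open Set Cardinal

/-- the well-ordered type with order type the cardinal `ℵ₂` -/
abbrev KK : Type := (Cardinal.aleph.{0} 2).ord.ToType

/-- the well-ordered type with order type the cardinal `ℵ₁` -/
abbrev JJ : Type := (Cardinal.aleph.{0} 1).ord.ToType

private theorem Trans_iio_lt {c : Cardinal.{0}} (i : c.ord.ToType) :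
    Cardinal.mk (Iio i) < c := by
  simpa using Cardinal.mk_Iio_lt i

private theorem Trans_aleph_two : Cardinal.aleph.{0} 2 = Order.succ (Cardinal.aleph 1) := by
  rw [Cardinal.succ_aleph, one_add_one_eq_two]

instance omTwo_KK : OmTwo KK where
  wf := inferInstance
  card := by
    rw [Cardinal.mk_toType, Cardinal.card_ord]
  ini a := by
    have h := Trans_iio_lt a
    exact Order.lt_succ_iff.1 (h.trans_eq Trans_aleph_two)

instance omOne_JJ : OmOne JJ where
  wf := inferInstance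
  card := by
    rw [Cardinal.mk_toType, Cardinal.card_ord]
  ini a := Cardinal.le_aleph0_iff_set_countable.1 (Cardinal.lt_aleph_one_iff.1 (Trans_iio_lt a))

/-- the ordinal of an element of `KK` -/
private noncomputable def Trans_val (x : KK) : Ordinal.{0} := (x.toOrd : Ordinal.{0})

private theorem Trans_val_lt {x y : KK} : Trans_val x < Trans_val y ↔ x < y :=
  (Ordinal.ToType.mk (o := (Cardinal.aleph.{0} 2).ord)).symm.lt_iff_lt

private theorem Trans_val_bd (x : KK) : Trans_val x < (Cardinal.aleph.{0} 2).ord := x.toOrd.2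

private theorem Trans_val_surj {b : Ordinal.{0}} (hb : b < (Cardinal.aleph.{0} 2).ord) :
    ∃ x : KK, Trans_val x = b := by
  refine ⟨Ordinal.ToType.mk ⟨b, hb⟩, ?_⟩
  show ((Ordinal.ToType.mk.symm (Ordinal.ToType.mk ⟨b, hb⟩) : Iio _) : Ordinal.{0}) = b
  rw [OrderIso.symm_apply_apply]

private theorem Trans_val_inj {x y : KK} (h : Trans_val x = Trans_val y) : x = y := by
  rcases lt_trichotomy x y with h1 | h1 | h1
  · exact absurd h (Trans_val_lt.2 h1).ne
  · exact h1
  · exact absurd h (Trans_val_lt.2 h1).ne'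

private theorem Trans_acc {X : Set Ordinal.{0}} {a : KK} :
    Acc {x | Trans_val x ∈ X} a ↔ IsAccum X (Trans_val a) := by
  constructor
  · rintro ⟨⟨x, hx⟩, h⟩
    refine ⟨lt_of_le_of_lt zero_le (Trans_val_lt.2 hx), fun b hb => ?_⟩
    obtain ⟨y, rfl⟩ := Trans_val_surj (hb.trans (Trans_val_bd a))
    obtain ⟨z, hz, h1, h2⟩ := h y (Trans_val_lt.1 hb)
    exact ⟨Trans_val z, hz, Trans_val_lt.2 h1, Trans_val_lt.2 h2⟩
  · rintro ⟨h0, h⟩
    refine ⟨?_, fun e he => ?_⟩
    · obtain ⟨x, hx⟩ := Trans_val_surj (h0.trans (Trans_val_bd a))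
      exact ⟨x, Trans_val_lt.1 (by rw [hx]; exact h0)⟩
    · obtain ⟨c, hc, h1, h2⟩ := h _ (Trans_val_lt.2 he)
      obtain ⟨z, rfl⟩ := Trans_val_surj (h2.trans (Trans_val_bd a))
      exact ⟨z, hc, Trans_val_lt.1 h1, Trans_val_lt.1 h2⟩

/-- initial segments of `KK` and of the ordinals -/
theorem iio_KK (a : KK) : Nonempty (Iio a ≃o Iio (a.toOrd : Ordinal.{0})) := by
  refine ⟨StrictMono.orderIsoOfSurjective
    (fun x : Iio a => (⟨Trans_val x.1, Trans_val_lt.2 x.2⟩ : Iio (a.toOrd : Ordinal.{0}))) ?_ ?_⟩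
  · intro x y h
    exact Trans_val_lt.2 h
  · rintro ⟨b, hb⟩
    have hb' : b < Trans_val a := hb
    obtain ⟨y, rfl⟩ := Trans_val_surj (hb'.trans (Trans_val_bd a))
    exact ⟨⟨y, Trans_val_lt.1 hb'⟩, rfl⟩

/-- a square sequence gives a coherent sequence without thread -/
theorem exists_coh {C : Ordinal.{0} → Set Ordinal.{0}}
    (hC : IsSquareSeq (Cardinal.aleph 2) C) :
    ∃ D : KK → Set KK, Coh D ∧ ¬ ∃ T, Thread D T := by
  refine ⟨fun a => {x | Trans_val x ∈ C (Trans_val a)}, ⟨?_, ?_, ?_, ?_⟩, ?_⟩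
  · intro a _ x hx
    exact Trans_val_lt.1 ((hC.club _ (Trans_val_bd a)).sub hx)
  · intro a ha e he
    obtain ⟨x, _, h1, h2⟩ := ha.2 e he
    obtain ⟨c, hc, h3⟩ := (hC.club _ (Trans_val_bd a)).unbounded _ (Trans_val_lt.2 h2)
    have h4 : c < Trans_val a := (hC.club _ (Trans_val_bd a)).sub hc
    obtain ⟨z, rfl⟩ := Trans_val_surj (h4.trans (Trans_val_bd a))
    exact ⟨z, hc, Trans_val_lt.1 ((Trans_val_lt.2 h1).trans_le h3), Trans_val_lt.1 h4⟩
  · intro a _ g hg hacc
    exact (hC.club _ (Trans_val_bd a)).closed _ (Trans_val_lt.2 hg) (Trans_acc.1 hacc)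
  · intro a _ g hg hacc
    have h1 := hC.coherent _ (Trans_val_bd a) _ (Trans_val_lt.2 hg) (Trans_acc.1 hacc)
    ext x
    show Trans_val x ∈ C (Trans_val g) ↔ Trans_val x ∈ C (Trans_val a) ∧ x < g
    rw [h1]
    exact and_congr Iff.rfl Trans_val_lt
  · rintro ⟨T, hT, hth⟩
    have hT' : {x : KK | Trans_val x ∈ Trans_val '' T} = T := by
      ext x
      constructor
      · rintro ⟨y, hy, hyx⟩
        rwa [← Trans_val_inj hyx]
      · exact fun hx => ⟨x, hx, rfl⟩
    have hacc : ∀ a : KK, IsAccum (Trans_val '' T) (Trans_val a) → Acc T a := by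
      intro a ha
      have h1 := Trans_acc.2 ha
      rwa [hT'] at h1
    refine hC.noThread ⟨Trans_val '' T, ⟨?_, ?_, ?_⟩, ?_⟩
    · rintro _ ⟨x, _, rfl⟩
      exact Trans_val_bd x
    · intro b hb
      obtain ⟨y, rfl⟩ := Trans_val_surj hb
      obtain ⟨x, hx, hyx⟩ := hT.unb y
      exact ⟨_, ⟨x, hx, rfl⟩, (Trans_val_lt.2 hyx).le⟩
    · intro b hb hacb
      obtain ⟨y, rfl⟩ := Trans_val_surj hb
      exact ⟨y, hT.clo y (hacc y hacb), rfl⟩
    · intro b hb hacb
      obtain ⟨y, rfl⟩ := Trans_val_surj hb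
      have h1 := hth y (hacc y hacb)
      ext o
      constructor
      · rintro ⟨⟨x, hx, rfl⟩, h2⟩
        have h3 : x ∈ T ∩ Iio y := ⟨hx, Trans_val_lt.1 h2⟩
        rw [← h1] at h3
        exact h3
      · intro ho
        have h2 : o < Trans_val y := (hC.club _ (Trans_val_bd y)).sub ho
        obtain ⟨x, rfl⟩ := Trans_val_surj (h2.trans (Trans_val_bd y))
        have h3 : x ∈ T ∩ Iio y := by
          rw [← h1]
          exact ho
        exact ⟨⟨x, h3.1, rfl⟩, h2⟩

end Pool.Agent.Lib.MP_bdcdea_lc
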