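import Pool.Agent.Lib.MP_bdcdea_lc.TreeD
import Pool.Agent.Lib.MP_bdcdea_lc.Enum

set_option autoImplicit false

/-!
# The tree as a type
-/

namespace Pool.Agent.Lib.MP_bdcdea_lc

open Set Cardinal

variable {K : Type} [LinearOrder K]

/-- the nodes of the tree -/
def Tr (lev : K → Set (Set K)) : Type := {p : K × Set K // p.2 ⊆ Iio p.1 ∧ p.2 ∈ lev p.1}

/-- End-extension is a partial order on the nodes. -/
instance instTr (lev : K → Set (Set K)) : PartialOrder (Tr lev) where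
  le p q := NLe p.1 q.1
  le_refl p := ⟨le_refl _, inter_eq_left.2 p.2.1⟩
  le_trans p q r h1 h2 := by
    refine ⟨h1.1.trans h2.1, ?_⟩
    rw [← h1.2, ← h2.2, inter_assoc, inter_eq_right.2 (Iio_subset_Iio h1.1)]
  le_antisymm p q h1 h2 := by
    have h : p.1.1 = q.1.1 := le_antisymm h1.1 h2.1
    have h3 : p.1.2 = q.1.2 := by
      rw [← h1.2, h]
      exact inter_eq_left.2 q.2.1
    exact Subtype.ext (Prod.ext h h3)

variable [OmTwo K]

omit [OmTwo K] in
private theorem tr_eq_of_le {lev : K → Set (Set K)} {p q : Tr lev} (h : p ≤ q)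
    (h' : q.1.1 ≤ p.1.1) : p = q := by
  refine le_antisymm h ⟨h', ?_⟩
  have h2 := (show q.1.2 ∩ Iio p.1.1 = p.1.2 from h.2)
  have h3 : p.1.1 = q.1.1 := le_antisymm h.1 h'
  have h4 : q.1.2 = p.1.2 := by
    rw [← h2, h3]
    exact (inter_eq_left.2 q.2.1).symm
  show p.1.2 ∩ Iio q.1.1 = q.1.2
  rw [h4, ← h3]
  exact inter_eq_left.2 p.2.1

/-- the set of predecessors of a node of level `a` is isomorphic to the initial segment `Iio a` -/
theorem tr_pred {C Om : K → Set K} (hC : Coh C) {node : K → K × Set K}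
    {lev : K → Set (Set K)} (hL : IsLev C Om node lev) (t : Tr lev) :
    Nonempty (Iio t ≃o Iio t.1.1) := by
  have hlt : ∀ p : Iio t, p.1.1.1 < t.1.1 := by
    intro p
    have hp : p.1 < t := p.2
    refine lt_of_le_of_ne hp.le.1 fun h => ?_
    exact hp.ne (tr_eq_of_le hp.le h.symm.le)
  have hlt' : ∀ b : Iio t.1.1, @LT.lt (Tr lev) _ ⟨(b.1, t.1.2 ∩ Iio b.1), inter_subset_right,
      lev_restr hC hL (le_of_lt b.2) t.2.2⟩ t := by
    intro b
    refine lt_of_le_not_ge (show NLe (b.1, t.1.2 ∩ Iio b.1) t.1 from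
      ⟨le_of_lt b.2, rfl⟩) fun h => ?_
    exact absurd (show t.1.1 ≤ b.1 from h.1) (not_le.2 b.2)
  refine ⟨{ toFun := fun p => ⟨p.1.1.1, hlt p⟩
            invFun := fun b => ⟨⟨(b.1, t.1.2 ∩ Iio b.1), inter_subset_right,
              lev_restr hC hL (le_of_lt b.2) t.2.2⟩, hlt' b⟩
            left_inv := ?_
            right_inv := ?_
            map_rel_iff' := ?_ }⟩
  · intro p
    refine Subtype.ext (Subtype.ext (Prod.ext rfl ?_))
    exact (show p.1 ≤ t from le_of_lt p.2).2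
  · intro b
    rfl
  · intro p q
    constructor
    · intro h
      have h' : p.1.1.1 ≤ q.1.1.1 := h
      refine (show p.1 ≤ q.1 from ⟨h', ?_⟩)
      have hp := (show p.1 ≤ t from le_of_lt p.2).2
      have hq := (show q.1 ≤ t from le_of_lt q.2).2
      rw [← hp, ← hq, inter_assoc, inter_eq_right.2 (Iio_subset_Iio h')]
    · intro h
      exact (show p.1 ≤ q.1 from h).1

/-- there are nodes of every level -/
theorem tr_level {C Om : K → Set K} (hC : Coh C) {node : K → K × Set K}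
    {lev : K → Set (Set K)} (hL : IsLev C Om node lev) (a : K) :
    ∃ t : Tr lev, t.1.1 = a := by
  obtain ⟨m, -, hm⟩ := exists_least (s := (univ : Set K)) ⟨a, trivial⟩
  have h0 : lev m = {∅} := hL.zero m fun x hx => absurd (hm x trivial) (not_le.2 hx)
  obtain ⟨s, hs, -⟩ := lev_ext hC hL (hm a trivial) (x := ∅) (by rw [h0]; rfl)
  exact ⟨⟨(a, s), lev_sub hL hs, hs⟩, rfl⟩

/-- Antichains are small. -/
theorem tr_antichain {C Om : K → Set K} (hP : PP C Om) {node : K → K × Set K}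
    (hn : ∀ (a : K) (s : Set K), s ⊆ Iio a → ∃ x, node x = (a, s))
    {lev : K → Set (Set K)} (hL : IsLev C Om node lev) (s : Set (Tr lev))
    (hs : IsAntichain (· ≤ ·) s) : Cardinal.mk s ≤ Cardinal.aleph 1 := by
  obtain ⟨M, hsM, hM⟩ := zorn_subset_nonempty {M : Set (Tr lev) | IsAntichain (· ≤ ·) M}
    (fun c hc hch _ => ⟨⋃₀ c, (pairwise_sUnion hch.directedOn).2 hc,
      fun t ht => subset_sUnion_of_mem ht⟩) s hs
  have hMa : IsAntichain (· ≤ ·) M := hM.prop
  obtain ⟨a, ha⟩ := antichain_bdd hP hn hL (M := {p | ∃ q ∈ M, q.1 = p})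
    (by
      rintro _ ⟨q, -, rfl⟩
      exact q.2.2)
    (by
      rintro _ ⟨p, hp, rfl⟩ _ ⟨q, hq, rfl⟩ h
      by_contra hne
      exact hMa hp hq (fun h' => hne (congrArg Subtype.val h')) h)
    (by
      intro p hp
      by_contra hcon
      push Not at hcon
      let P : Tr lev := ⟨p, lev_sub hL hp, hp⟩
      have hPM : P ∉ M := fun h => (hcon p ⟨P, h, rfl⟩).1 (le_refl P)
      have hins : IsAntichain (· ≤ ·) (insert P M) := by
        refine isAntichain_insert.2 ⟨hMa, fun q hq _ => ?_⟩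
        exact hcon q.1 ⟨q, hq, rfl⟩
      exact hPM (hM.le_of_ge hins (subset_insert P M) (mem_insert P M)))
  refine le_trans ?_ (mk_below hP.coh hL a)
  refine Cardinal.mk_le_of_injective (f := fun x : s => (⟨x.1.1, ha x.1.1 ⟨x.1, hsM x.2, rfl⟩,
    x.1.2.2⟩ : {p : K × Set K | p.1 < a ∧ p.2 ∈ lev p.1})) ?_
  intro x y h
  exact Subtype.ext (Subtype.ext (congrArg (fun z => z.1) h))

/-- Chains are small. -/
theorem tr_chain {C Om : K → Set K} (hP : PP C Om) {node : K → K × Set K}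
    (hn : ∀ (a : K) (s : Set K), s ⊆ Iio a → ∃ x, node x = (a, s))
    {lev : K → Set (Set K)} (hL : IsLev C Om node lev) (s : Set (Tr lev))
    (hs : IsChain (· ≤ ·) s) : Cardinal.mk s ≤ Cardinal.aleph 1 := by
  by_contra hbig
  have hunb : ∀ a : K, ∃ p ∈ s, a ≤ p.1.1 := by
    by_contra hcon
    push Not at hcon
    obtain ⟨a, ha⟩ := hcon
    refine hbig (le_trans ?_ (OmTwo.ini a))
    refine Cardinal.mk_le_of_injective (f := fun x : s => (⟨x.1.1.1, ha x.1 x.2⟩ : Iio a)) ?_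
    intro x y h
    have h' : x.1.1.1 = y.1.1.1 := congrArg (fun z => z.1) h
    rcases hs.total x.2 y.2 with h1 | h1
    · exact Subtype.ext (tr_eq_of_le h1 h'.symm.le)
    · exact Subtype.ext (tr_eq_of_le h1 h'.le).symm
  set U : Set K := {x | ∃ p ∈ s, x ∈ p.1.2} with hU
  have hUp : ∀ p ∈ s, U ∩ Iio p.1.1 = p.1.2 := by
    intro p hp
    ext x
    constructor
    · rintro ⟨⟨q, hq, hx⟩, hxp⟩
      rcases hs.total hq hp with h1 | h1
      · have h2 : p.1.2 ∩ Iio q.1.1 = q.1.2 := h1.2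
        rw [← h2] at hx
        exact hx.1
      · have h2 : q.1.2 ∩ Iio p.1.1 = p.1.2 := h1.2
        rw [← h2]
        exact ⟨hx, hxp⟩
    · intro hx
      exact ⟨⟨p, hp, hx⟩, p.2.1 hx⟩
  have hUb : ∀ b, U ∩ Iio b ∈ lev b := by
    intro b
    obtain ⟨p, hp, hbp⟩ := hunb b
    have h1 := lev_restr hP.coh hL hbp p.2.2
    rwa [← hUp p hp, inter_assoc, inter_eq_right.2 (Iio_subset_Iio hbp)] at h1
  choose sc hsc1 hsc2 using fun b : K => exists_succ b
  set T : K → Set K := fun b => {x | (x < b ∧ x ∈ U) ∨ (x = b ∧ b ∉ U)} with hT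
  have hTb : ∀ b, T b ⊆ Iio (sc b) := by
    rintro b x (⟨h1, -⟩ | ⟨h1, -⟩)
    · exact h1.trans (hsc1 b)
    · rw [h1]
      exact hsc1 b
  have hTl : ∀ b, T b ∈ lev (sc b) := by
    intro b
    rw [hL.succ (sc b) b (hsc1 b) fun x hx => not_lt.1 fun h => absurd (hsc2 b x h) (not_le.2 hx)]
    refine ⟨hTb b, ?_⟩
    have : T b ∩ Iio b = U ∩ Iio b := by
      ext x
      constructor
      · rintro ⟨⟨h1, h2⟩ | ⟨h1, -⟩, h3⟩
        · exact ⟨h2, h1⟩
        · exact absurd h1 (ne_of_lt h3)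
      · rintro ⟨h1, h2⟩
        exact ⟨Or.inl ⟨h2, h1⟩, h2⟩
    rw [this]
    exact hUb b
  let N : K → Tr lev := fun b => ⟨(sc b, T b), hTb b, hTl b⟩
  have hN : ∀ b b', N b ≤ N b' → b = b' := by
    intro b b' h
    have h1 : sc b ≤ sc b' := h.1
    have h2 : T b' ∩ Iio (sc b) = T b := h.2
    by_contra hne
    have hlt : b < b' := by
      refine lt_of_le_of_ne (not_lt.1 fun hlt => ?_) hne
      exact absurd (h1.trans (hsc2 b' b hlt)) (not_le.2 (hsc1 b))
    have h3 : b ∈ T b ↔ b ∉ U := by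
      constructor
      · rintro (⟨h3, -⟩ | ⟨-, h3⟩)
        · exact absurd h3 (lt_irrefl b)
        · exact h3
      · exact fun h3 => Or.inr ⟨rfl, h3⟩
    have h4 : b ∈ T b ↔ b ∈ U := by
      rw [← h2]
      constructor
      · rintro ⟨⟨-, h4⟩ | ⟨h4, -⟩, -⟩
        · exact h4
        · exact absurd h4 hne
      · exact fun h4 => ⟨Or.inl ⟨hlt, h4⟩, hsc1 b⟩
    tauto
  have hinj : Function.Injective N := fun b b' h => hN b b' h.le
  have hanti : IsAntichain (· ≤ ·) (range N) := by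
    rintro _ ⟨b, rfl⟩ _ ⟨b', rfl⟩ hne h
    exact hne (congrArg N (hN b b' h))
  have h1 := tr_antichain hP hn hL (range N) hanti
  rw [Cardinal.mk_range_eq N hinj, OmTwo.card, Cardinal.aleph_le_aleph] at h1
  exact absurd h1 (by norm_num)

end Pool.Agent.Lib.MP_bdcdea_lc
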