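import Pool.Agent.Lib.MP_bdcdea_lc.ExP
import Pool.Agent.Lib.MP_bdcdea_lc.TreeE
import Pool.Agent.Lib.MP_bdcdea_lc.Trans

set_option autoImplicit false

/-!
# The main theorem
-/

namespace Pool.Agent.Lib.MP_bdcdea_lc

open Set Cardinal

theorem main (hp : (2 : Cardinal.{0}) ^ Cardinal.aleph 1 = Cardinal.aleph 2)
    (hS : SquareAt (Cardinal.aleph 2)) :
    ∃ (T : Type) (_ : PartialOrder T), IsSouslinTree (Cardinal.aleph 2) T := by
  obtain ⟨C, hC⟩ := hS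
  obtain ⟨D, hD, hT⟩ := exists_coh hC
  obtain ⟨C', Om, hP⟩ := exists_PP (J := JJ) hp hD hT
  obtain ⟨node, hn⟩ := exists_node hp KK
  obtain ⟨lev, hL⟩ := exists_lev hP.coh Om node
  have hlt : Cardinal.aleph.{0} 1 < Cardinal.aleph 2 :=
    Cardinal.aleph_lt_aleph.2 (by norm_num)
  refine ⟨Tr lev, instTr lev, ?_, ?_, ?_, ?_⟩
  · intro t
    obtain ⟨f⟩ := tr_pred hP.coh hL t
    obtain ⟨g⟩ := iio_KK t.1.1
    exact ⟨_, (Ordinal.ToType.toOrd t.1.1).2, ⟨f.trans g⟩⟩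
  · intro a ha
    obtain ⟨t, ht⟩ := tr_level hP.coh hL (Ordinal.ToType.mk ⟨a, ha⟩)
    obtain ⟨f⟩ := tr_pred hP.coh hL t
    obtain ⟨g⟩ := iio_KK t.1.1
    refine ⟨t, ⟨f.trans ?_⟩⟩
    have h : ((Ordinal.ToType.toOrd t.1.1 : Iio (Cardinal.aleph.{0} 2).ord) : Ordinal.{0}) = a := by
      rw [ht]
      simp
    rw [← h]
    exact g
  · rintro ⟨s, hs, hc⟩
    have := tr_chain hP hn hL s hs
    rw [hc] at this
    exact absurd this (not_le.2 hlt)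
  · rintro ⟨s, hs, hc⟩
    have := tr_antichain hP hn hL s hs
    rw [hc] at this
    exact absurd this (not_le.2 hlt)

end Pool.Agent.Lib.MP_bdcdea_lc
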