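import Pool.Agent.Lib.MP_bdcdea_lc.ClubB

set_option autoImplicit false

/-!
# Moving a coherent sequence down to a closed unbounded set
-/

namespace Pool.Agent.Lib.MP_bdcdea_lc

open Set Cardinal

variable {K : Type} [LinearOrder K] [OmTwo K]

omit [OmTwo K] in
private theorem mem_pos {C : K → Set K} {D : Set K} {a : K} (ha : Acc D a) {w : K} :
    w ∈ phiD D C a ↔ ∃ η ∈ C a, MaxLe D η w := by
  unfold phiD
  rw [if_pos ha]
  exact Iff.rfl

omit [OmTwo K] in
private theorem mem_neg {C : K → Set K} {D : Set K} {a : K} (ha : ¬ Acc D a) {x : K} :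
    x ∈ phiD D C a ↔ x ∈ C a ∧ ∀ d ∈ D, d < a → d < x := by
  unfold phiD
  rw [if_neg ha]
  exact Iff.rfl

/-- the limit points of `phiD D C a` are limit points of `C a` and of `D` -/
theorem acc_phiD {C : K → Set K} (hC : Coh C) {D : Set K} (hD : Club D) {a : K} (ha : Acc D a)
    {g : K} (hg : g ≤ a) (h : Acc (phiD D C a) g) : Acc (C a) g ∧ Acc D g := by
  have _ := hC
  have _ := hg
  have hDg : Acc D g := by
    refine h.mono fun w hw => ?_
    obtain ⟨η, _, h2⟩ := (mem_pos ha).1 hw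
    exact h2.1
  refine ⟨⟨h.1, fun e he => ?_⟩, hDg⟩
  obtain ⟨w, hw, h1, h2⟩ := h.2 e he
  obtain ⟨η, hη, hm⟩ := (mem_pos ha).1 hw
  refine ⟨η, hη, lt_of_lt_of_le h1 hm.2.1, ?_⟩
  by_contra hcon
  have h3 := hm.2.2 g (hD.clo g hDg) (not_lt.1 hcon)
  exact absurd h2 (not_lt.2 h3)

theorem coh_phiD {C : K → Set K} (hC : Coh C) {D : Set K} (hD : Club D) : Coh (phiD D C) where
  lt := by
    intro a hL x hx
    by_cases ha : Acc D a
    · obtain ⟨η, hη, hm⟩ := (mem_pos ha).1 hx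
      exact lt_of_le_of_lt hm.2.1 (hC.lt a hL η hη)
    · exact hC.lt a hL x ((mem_neg ha).1 hx).1
  cof := by
    intro a hL e he
    by_cases ha : Acc D a
    · obtain ⟨d, hd, h1, h2⟩ := ha.2 e he
      obtain ⟨η, hη, h3, h4⟩ := hC.cof a hL d h2
      obtain ⟨w, hw⟩ := exists_maxLe (D := D) (η := η) (fun b _ hb => hD.clo b hb)
        ⟨d, hd, h3.le⟩
      exact ⟨w, (mem_pos ha).2 ⟨η, hη, hw⟩, lt_of_lt_of_le h1 (hw.2.2 d hd h3.le),
        lt_of_le_of_lt hw.2.1 h4⟩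
    · have h0 : ¬ Cofin D a := fun h => ha ⟨hL.1, h⟩
      unfold Cofin at h0
      push Not at h0
      obtain ⟨e0, he0, h1⟩ := h0
      obtain ⟨x, hx, h2, h3⟩ := hC.cof a hL (max e e0) (max_lt he he0)
      refine ⟨x, (mem_neg ha).2 ⟨hx, fun d hd hda => ?_⟩, lt_of_le_of_lt (le_max_left _ _) h2, h3⟩
      by_contra hcon
      have h4 : e0 < d := lt_of_lt_of_le (lt_of_le_of_lt (le_max_right _ _) h2) (not_lt.1 hcon)
      exact absurd hda (not_lt.2 (h1 d hd h4))
  clo := by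
    intro a hL g hg h
    by_cases ha : Acc D a
    · obtain ⟨h1, h2⟩ := acc_phiD hC hD ha hg.le h
      exact (mem_pos ha).2 ⟨g, hC.clo a hL g hg h1, hD.clo g h2, le_rfl, fun d _ h => h⟩
    · have h1 : Acc (C a) g := h.mono fun x hx => ((mem_neg ha).1 hx).1
      refine (mem_neg ha).2 ⟨hC.clo a hL g hg h1, fun d hd hda => ?_⟩
      obtain ⟨x0, hx0⟩ := h.1
      obtain ⟨x, hx, _, h3⟩ := h.2 x0 hx0
      exact lt_trans (((mem_neg ha).1 hx).2 d hd hda) h3
  coh := by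
    intro a hL g hg h
    by_cases ha : Acc D a
    · obtain ⟨h1, h2⟩ := acc_phiD hC hD ha hg.le h
      have h3 := hC.coh a hL g hg h1
      ext w
      rw [mem_pos h2]
      constructor
      · rintro ⟨η, hη, hm⟩
        rw [h3] at hη
        exact ⟨(mem_pos ha).2 ⟨η, hη.1, hm⟩, lt_of_le_of_lt hm.2.1 hη.2⟩
      · rintro ⟨hw, hwg⟩
        obtain ⟨η, hη, hm⟩ := (mem_pos ha).1 hw
        refine ⟨η, ?_, hm⟩
        rw [h3]
        refine ⟨hη, ?_⟩
        show η < g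
        by_contra hcon
        have h4 := hm.2.2 g (hD.clo g h2) (not_lt.1 hcon)
        exact absurd hwg (not_lt.2 h4)
    · have h1 : Acc (C a) g := h.mono fun x hx => ((mem_neg ha).1 hx).1
      have h3 := hC.coh a hL g hg h1
      obtain ⟨x0, hx0⟩ := h.1
      obtain ⟨y, hy, _, hyg⟩ := h.2 x0 hx0
      have hyD := ((mem_neg ha).1 hy).2
      have hng : ¬ Acc D g := by
        intro hA
        obtain ⟨d, hd, h4, h5⟩ := hA.2 y hyg
        exact absurd (hyD d hd (lt_trans h5 hg)) (not_lt.2 h4.le)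
      ext x
      rw [mem_neg hng, h3]
      constructor
      · rintro ⟨⟨hx, hxg⟩, hxD⟩
        refine ⟨(mem_neg ha).2 ⟨hx, fun d hd hda => ?_⟩, hxg⟩
        exact hxD d hd (lt_trans (hyD d hd hda) hyg)
      · rintro ⟨hx, hxg⟩
        obtain ⟨hx1, hx2⟩ := (mem_neg ha).1 hx
        exact ⟨⟨hx1, hxg⟩, fun d hd hdg => hx2 d hd (lt_trans hdg hg)⟩

end Pool.Agent.Lib.MP_bdcdea_lc
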