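import Pool.Agent.Lib.MP_bdcdea_lc.ClubB

set_option autoImplicit false

/-!
# Replacing the non-accumulation points
-/

namespace Pool.Agent.Lib.MP_bdcdea_lc

open Set Cardinal

variable {K : Type} [LinearOrder K] [OmTwo K]

section

variable {K : Type} [LinearOrder K]

open Classical in
/-- the replacement map -/
private noncomputable def rp (f : K → K) (X : Set K) (y : K) : K := if Rp f X y then f y else y

private theorem rp_pos {f : K → K} {X : Set K} {y : K} (h : Rp f X y) : rp f X y = f y := by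
  unfold rp
  rw [if_pos h]

private theorem rp_neg {f : K → K} {X : Set K} {y : K} (h : ¬ Rp f X y) : rp f X y = y := by
  unfold rp
  rw [if_neg h]

private theorem rp_le (f : K → K) (X : Set K) (y : K) : rp f X y ≤ y := by
  by_cases h : Rp f X y
  · rw [rp_pos h]
    exact h.2.2.le
  · rw [rp_neg h]

private theorem lt_rp {f : K → K} {X : Set K} {c y : K} (hc : c ∈ X) (h : c < y) :
    c < rp f X y := by
  by_cases h' : Rp f X y
  · rw [rp_pos h']
    exact h'.2.1 c hc h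
  · rw [rp_neg h']
    exact h

private theorem mem_ci {f : K → K} {X : Set K} {x : K} :
    x ∈ ci f X ↔ ∃ y ∈ X, x = rp f X y := by
  constructor
  · rintro (⟨h1, h2⟩ | ⟨b, h1, h2⟩)
    · exact ⟨x, h1, (rp_neg h2).symm⟩
    · exact ⟨b, h1.1.1, by rw [rp_pos h1, h2]⟩
  · rintro ⟨y, hy, rfl⟩
    by_cases h : Rp f X y
    · exact Or.inr ⟨y, h, rp_pos h⟩
    · left
      rw [rp_neg h]
      exact ⟨hy, h⟩

private theorem acc_ci_gen (f : K → K) (X : Set K) (g : K) : Acc (ci f X) g ↔ Acc X g := by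
  constructor
  · rintro ⟨h0, h1⟩
    refine ⟨h0, fun e he => ?_⟩
    obtain ⟨y', hy', h2, h3⟩ := h1 e he
    obtain ⟨y'', hy'', h4, h5⟩ := h1 y' h3
    obtain ⟨y1, hy1, rfl⟩ := mem_ci.1 hy'
    obtain ⟨y2, hy2, rfl⟩ := mem_ci.1 hy''
    have h6 : y1 < y2 := by
      by_contra h7
      rcases (not_lt.1 h7).eq_or_lt with h8 | h8
      · rw [h8] at h4
        exact lt_irrefl _ h4
      · have h9 := lt_rp (f := f) hy2 h8
        exact absurd (h4.trans_le (rp_le f X y2)) (not_lt.2 h9.le)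
    exact ⟨y1, hy1, h2.trans_le (rp_le f X y1), (lt_rp hy1 h6).trans h5⟩
  · rintro ⟨h0, h1⟩
    refine ⟨h0, fun e he => ?_⟩
    obtain ⟨y1, hy1, h2, h3⟩ := h1 e he
    obtain ⟨y2, hy2, h4, h5⟩ := h1 y1 h3
    exact ⟨rp f X y2, mem_ci.2 ⟨y2, hy2, rfl⟩, h2.trans (lt_rp hy1 h4),
      (rp_le f X y2).trans_lt h5⟩

private theorem rp_inter (f : K → K) (X : Set K) {a b : K} (hb : b < a) :
    Rp f (X ∩ Iio a) b ↔ Rp f X b := by
  unfold Rp
  rw [nac_inter_Iio hb]
  constructor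
  · rintro ⟨h1, h2, h3⟩
    exact ⟨h1, fun c hc hcb => h2 c ⟨hc, hcb.trans hb⟩ hcb, h3⟩
  · rintro ⟨h1, h2, h3⟩
    exact ⟨h1, fun c hc hcb => h2 c hc.1 hcb, h3⟩

end

theorem acc_ci {C : K → Set K} (hC : Coh C) (f : K → K) {a : K} (ha : Lim a) {g : K}
    (hg : g ≤ a) : Acc (ci f (C a)) g ↔ Acc (C a) g := by
  have _ := hC
  have _ := ha
  have _ := hg
  exact acc_ci_gen f (C a) g

theorem ci_inter (f : K → K) (X : Set K) {g : K} (hg : Acc X g) :
    ci f (X ∩ Iio g) = ci f X ∩ Iio g := by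
  have hrp : ∀ y, y < g → rp f (X ∩ Iio g) y = rp f X y := by
    intro y hy
    by_cases h : Rp f X y
    · rw [rp_pos h, rp_pos ((rp_inter f X hy).2 h)]
    · rw [rp_neg h, rp_neg fun h' => h ((rp_inter f X hy).1 h')]
  ext x
  constructor
  · intro hx
    obtain ⟨y, hy, rfl⟩ := mem_ci.1 hx
    rw [hrp y hy.2]
    exact ⟨mem_ci.2 ⟨y, hy.1, rfl⟩, (rp_le f X y).trans_lt hy.2⟩
  · rintro ⟨hx, hxg⟩
    obtain ⟨y, hy, rfl⟩ := mem_ci.1 hx
    have hyg : y < g := by
      by_contra h1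
      by_cases h : Rp f X y
      · rw [rp_pos h] at hxg
        have h2 : g ≠ y := by
          rintro rfl
          exact h.1.2 hg
        have h3 : g < y := lt_of_le_of_ne (not_lt.1 h1) h2
        obtain ⟨z, hz, h4, h5⟩ := hg.2 (f y) hxg
        exact lt_irrefl _ (h4.trans (h.2.1 z hz (h5.trans h3)))
      · rw [rp_neg h] at hxg
        exact h1 hxg
    exact mem_ci.2 ⟨y, ⟨hy, hyg⟩, (hrp y hyg).symm⟩

theorem coh_ci {C : K → Set K} (hC : Coh C) (f : K → K) : Coh (fun a => ci f (C a)) where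
  lt := by
    intro a ha x hx
    obtain ⟨y, hy, rfl⟩ := mem_ci.1 hx
    exact (rp_le f (C a) y).trans_lt (hC.lt a ha y hy)
  cof := by
    intro a ha
    exact ((acc_ci_gen f (C a) a).2 ⟨ha.1, hC.cof a ha⟩).2
  clo := by
    intro a ha g hg h
    have h1 := (acc_ci_gen f (C a) g).1 h
    exact Or.inl ⟨hC.clo a ha g hg h1, fun h2 => h2.1.2 h1⟩
  coh := by
    intro a ha g hg h
    have h1 := (acc_ci_gen f (C a) g).1 h
    change ci f (C g) = ci f (C a) ∩ Iio g
    rw [hC.coh a ha g hg h1, ci_inter f (C a) h1]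

/-- the new points are non-accumulation points -/
theorem nac_ci {C : K → Set K} (hC : Coh C) (f : K → K) {a : K} (ha : Lim a) {b : K}
    (h : Rp f (C a) b) : Nac (ci f (C a)) (f b) := by
  refine ⟨Or.inr ⟨b, h, rfl⟩, fun h1 => ?_⟩
  have h2 := (acc_ci_gen f (C a) (f b)).1 h1
  have h3 : f b ∈ C a := hC.clo a ha (f b) (h.2.2.trans (hC.lt a ha b h.1.1)) h2
  exact lt_irrefl _ (h.2.1 (f b) h3 h.2.2)

/-- `Rp` depends only on the elements below the point -/
theorem rp_inter_Iio (f : K → K) (X : Set K) {a b : K} (hb : b < a) :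
    Rp f (X ∩ Iio a) b ↔ Rp f X b := rp_inter f X hb

end Pool.Agent.Lib.MP_bdcdea_lc
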