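import Pool.Agent.Lib.MP_bdcdea_lc.Defs

set_option autoImplicit false

/-!
# The levels of the tree: definitions

A node of level `a` is a subset of `Iio a`; the order of the nodes is end-extension.
-/

namespace Pool.Agent.Lib.MP_bdcdea_lc

open Set Cardinal

section

variable {K : Type} [LinearOrder K]

/-- `t`, as a node of level `b`, is above (or equal to) the node `p`. -/
def Above (p : K × Set K) (b : K) (t : Set K) : Prop := p.1 ≤ b ∧ t ∩ Iio p.1 = p.2

/-- `t` is an element of `L` which extends `y` from level `c`. -/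
def ExtIn (L : Set (Set K)) (c : K) (y t : Set K) : Prop := t ∈ L ∧ t ∩ Iio c = y

/-- `t` is above a node of the list `node` with index in `U`. -/
def HitIn (node : K → K × Set K) (U : Set K) (b : K) (t : Set K) : Prop :=
  ∃ x ∈ U, Above (node x) b t

open Classical in
/-- the next node: an element of `L` (which is level `b`) extending `y` from level `c`, if
possible above one of the nodes with index in `U` -/
noncomputable def nx (node : K → K × Set K) (U : Set K) (L : Set (Set K)) (b c : K)
    (y : Set K) : Set K :=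
  if h : ∃ t, ExtIn L c y t ∧ HitIn node U b t then h.choose
  else if h' : ∃ t, ExtIn L c y t then h'.choose else ∅

/-- `c` is the predecessor of `b` in `X`. -/
def PredIn (X : Set K) (b c : K) : Prop := c ∈ X ∧ c < b ∧ ∀ d ∈ X, d < b → d ≤ c

/-- `s` is a path along `X` with levels `lev`, guesses `Om`, and start `x` at `g`. -/
def IsPath (Om : K → Set K) (node : K → K × Set K) (lev : K → Set (Set K)) (X : Set K)
    (g : K) (x s : Set K) : Prop :=
  s ∩ Iio g = x ∧ ∀ b ∈ X, ∀ c, PredIn X b c → g ≤ c →
    s ∩ Iio b = nx node (Om b) (lev b) b c (s ∩ Iio c)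

/-- The levels of the tree. -/
structure IsLev (C Om : K → Set K) (node : K → K × Set K) (lev : K → Set (Set K)) : Prop where
  zero : ∀ a, (∀ x, ¬ x < a) → lev a = {∅}
  succ : ∀ a b, b < a → (∀ x < a, x ≤ b) → lev a = {s | s ⊆ Iio a ∧ s ∩ Iio b ∈ lev b}
  lim : ∀ a, Lim a → ∀ s, s ∈ lev a ↔
    s ⊆ Iio a ∧ ∃ g ∈ C a, ∃ x ∈ lev g, IsPath Om node lev (C a) g x s

end

end Pool.Agent.Lib.MP_bdcdea_lc
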