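import Pool.Agent.Lib.MP_bdcdea_lc.ClubA
import Pool.Agent.Lib.MP_bdcdea_lc.TreeDefs

set_option autoImplicit false

/-!
# Existence of the levels; first facts
-/

namespace Pool.Agent.Lib.MP_bdcdea_lc

open Set Cardinal

variable {K : Type} [LinearOrder K] [OmTwo K]

open Classical in
private noncomputable def levBody (C : K → Set K) (Om : K → Set K) (node : K → K × Set K) (a : K)
    (ext : K → Set (Set K)) : Set (Set K) :=
  if ∀ x, ¬ x < a then {∅}
  else if h : ∃ b, b < a ∧ ∀ x < a, x ≤ b then {s | s ⊆ Iio a ∧ s ∩ Iio h.choose ∈ ext h.choose}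
  else {s | s ⊆ Iio a ∧ ∃ g ∈ C a, ∃ x ∈ ext g, IsPath Om node ext (C a) g x s}

omit [OmTwo K] in
private theorem isPath_congr {Om : K → Set K} {node : K → K × Set K} {lev lev' : K → Set (Set K)}
    {X : Set K} (h : ∀ b ∈ X, lev b = lev' b) (g : K) (x s : Set K) :
    IsPath Om node lev X g x s ↔ IsPath Om node lev' X g x s := by
  unfold IsPath
  constructor
  · rintro ⟨h1, h2⟩
    refine ⟨h1, fun b hb c hc hgc => ?_⟩
    rw [← h b hb]
    exact h2 b hb c hc hgc
  · rintro ⟨h1, h2⟩
    refine ⟨h1, fun b hb c hc hgc => ?_⟩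
    rw [h b hb]
    exact h2 b hb c hc hgc

/-- The levels exist (well-founded recursion). -/
theorem exists_lev {C : K → Set K} (hC : Coh C) (Om : K → Set K) (node : K → K × Set K) :
    ∃ lev : K → Set (Set K), IsLev C Om node lev := by
  classical
  have wf : WellFounded (fun a b : K => a < b) := (OmTwo.wf (K := K)).wf
  let F : (a : K) → ((b : K) → b < a → Set (Set K)) → Set (Set K) :=
    fun a rec => levBody C Om node a (fun b => if h : b < a then rec b h else ∅)
  let lev : K → Set (Set K) := wf.fix F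
  have key : ∀ a, lev a = levBody C Om node a (fun b => if b < a then lev b else ∅) := by
    intro a
    have h1 : lev a = F a (fun b _ => lev b) := wf.fix_eq F a
    rw [h1]
    show levBody C Om node a (fun b => if h : b < a then lev b else ∅) = _
    congr 1
  refine ⟨lev, ?_, ?_, ?_⟩
  · intro a ha
    rw [key a]
    unfold levBody
    rw [if_pos ha]
  · intro a b hb hab
    rw [key a]
    unfold levBody
    rw [if_neg (fun h => h b hb)]
    have hex : ∃ b, b < a ∧ ∀ x < a, x ≤ b := ⟨b, hb, hab⟩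
    rw [dif_pos hex]
    have hc : hex.choose = b :=
      le_antisymm (hab _ hex.choose_spec.1) (hex.choose_spec.2 b hb)
    rw [hc]
    show {s | s ⊆ Iio a ∧ s ∩ Iio b ∈ (if b < a then lev b else ∅)} = _
    rw [if_pos hb]
  · intro a ha s
    have h0 : ¬ ∀ x, ¬ x < a := fun h => ha.1.elim fun x hx => h x hx
    have h1 : ¬ ∃ b, b < a ∧ ∀ x < a, x ≤ b := by
      rintro ⟨b, hb, hab⟩
      obtain ⟨x, -, hbx, hxa⟩ := ha.2 b hb
      exact absurd (hab x hxa) (not_le.2 hbx)
    rw [key a]
    unfold levBody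
    rw [if_neg h0, dif_neg h1]
    have hlev : ∀ b ∈ C a, (if b < a then lev b else ∅) = lev b := fun b hb =>
      if_pos (hC.lt a ha b hb)
    constructor
    · rintro ⟨hs, g, hg, x, hx, hp⟩
      refine ⟨hs, g, hg, x, ?_, ?_⟩
      · have hx' : x ∈ (if g < a then lev g else ∅) := hx
        rwa [hlev g hg] at hx'
      · exact (isPath_congr hlev g x s).1 hp
    · rintro ⟨hs, g, hg, x, hx, hp⟩
      refine ⟨hs, g, hg, x, ?_, ?_⟩
      · show x ∈ (if g < a then lev g else ∅)
        rwa [hlev g hg]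
      · exact (isPath_congr hlev g x s).2 hp

/-- trichotomy: a least element, a successor or a limit -/
theorem zero_succ_lim (a : K) :
    (∀ x, ¬ x < a) ∨ (∃ b, b < a ∧ ∀ x < a, x ≤ b) ∨ Lim a := by
  by_cases h0 : ∀ x, ¬ x < a
  · exact Or.inl h0
  · by_cases h1 : ∃ b, b < a ∧ ∀ x < a, x ≤ b
    · exact Or.inr (Or.inl h1)
    · refine Or.inr (Or.inr ⟨?_, ?_⟩)
      · push Not at h0
        exact h0
      · intro e he
        push Not at h1
        obtain ⟨x, hxa, hex⟩ := h1 e he
        exact ⟨x, mem_univ _, hex, hxa⟩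

theorem nx_mem {node : K → K × Set K} {U : Set K} {L : Set (Set K)} {b c : K} {y : Set K}
    (h : ∃ t, ExtIn L c y t) : ExtIn L c y (nx node U L b c y) := by
  unfold nx
  split_ifs with h1
  · exact h1.choose_spec.1
  · exact h.choose_spec

theorem nx_hit {node : K → K × Set K} {U : Set K} {L : Set (Set K)} {b c : K} {y : Set K}
    (h : ∃ t, ExtIn L c y t ∧ HitIn node U b t) : HitIn node U b (nx node U L b c y) := by
  unfold nx
  rw [dif_pos h]
  exact h.choose_spec.2

/-- Paths are unique. -/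
theorem path_unique {Om : K → Set K} {node : K → K × Set K} {lev : K → Set (Set K)}
    {X : Set K} {a g : K} {x s t : Set K} (hX : Cofin X a)
    (hcl : ∀ b < a, Acc X b → b ∈ X) (hg : g ∈ X) (hga : g < a)
    (hs : s ⊆ Iio a) (ht : t ⊆ Iio a)
    (h1 : IsPath Om node lev X g x s) (h2 : IsPath Om node lev X g x t) : s = t := by
  have wf : WellFounded (fun a b : K => a < b) := (OmTwo.wf (K := K)).wf
  have key : ∀ b : K, b ∈ X → g ≤ b → b < a → s ∩ Iio b = t ∩ Iio b := by
    intro b
    induction b using wf.induction with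
    | _ b ih =>
      intro hbX hgb hba
      rcases hgb.eq_or_lt with hgb' | hgb'
      · rw [← hgb', h1.1, h2.1]
      · by_cases hacc : Acc X b
        · ext y
          simp only [mem_inter_iff, mem_Iio]
          refine and_congr_left fun hy => ?_
          obtain ⟨b', hb'X, hb'1, hb'2⟩ := hacc.2 (max y g) (max_lt hy hgb')
          have h3 := ih b' hb'2 hb'X ((le_max_right y g).trans hb'1.le) (hb'2.trans hba)
          have hyb' : y < b' := (le_max_left y g).trans_lt hb'1
          have h4 : y ∈ s ∩ Iio b' ↔ y ∈ t ∩ Iio b' := by rw [h3]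
          simpa [hyb'] using h4
        · obtain ⟨c, hcX, hcb, hc⟩ := exists_pred (X := X) (b := b)
            (fun a' ha' hacc' => hcl a' (ha'.trans hba) hacc') hacc ⟨g, hg, hgb'⟩
          have hgc : g ≤ c := hc g hg hgb'
          have h3 := h1.2 b hbX c ⟨hcX, hcb, hc⟩ hgc
          have h4 := h2.2 b hbX c ⟨hcX, hcb, hc⟩ hgc
          rw [h3, h4, ih c hcb hcX hgc (hcb.trans hba)]
  ext y
  have hmain : y < a → (y ∈ s ↔ y ∈ t) := by
    intro hy
    obtain ⟨b, hbX, hb1, hb2⟩ := hX (max y g) (max_lt hy hga)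
    have h3 := key b hbX ((le_max_right y g).trans hb1.le) hb2
    have hyb : y < b := (le_max_left y g).trans_lt hb1
    have h4 : y ∈ s ∩ Iio b ↔ y ∈ t ∩ Iio b := by rw [h3]
    simpa [hyb] using h4
  exact ⟨fun hy => (hmain (hs hy)).1 hy, fun hy => (hmain (ht hy)).2 hy⟩

end Pool.Agent.Lib.MP_bdcdea_lc
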