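import Pool.Agent.Lib.MP_bdcdea_lc.TreeA

set_option autoImplicit false

/-!
# Restrictions and extensions of nodes
-/

namespace Pool.Agent.Lib.MP_bdcdea_lc

open Set Cardinal

variable {K : Type} [LinearOrder K] [OmTwo K]

theorem lev_sub {C Om : K → Set K} {node : K → K × Set K} {lev : K → Set (Set K)}
    (hL : IsLev C Om node lev) {a : K} {s : Set K} (hs : s ∈ lev a) : s ⊆ Iio a := by
  rcases zero_succ_lim a with h | ⟨b, hb, h⟩ | h
  · rw [hL.zero a h, mem_singleton_iff] at hs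
    rw [hs]
    exact empty_subset _
  · rw [hL.succ a b hb h] at hs
    exact hs.1
  · exact ((hL.lim a h s).1 hs).1

private theorem cut_cut {s : Set K} {b c : K} (h : b ≤ c) : s ∩ Iio c ∩ Iio b = s ∩ Iio b := by
  rw [inter_assoc, Iio_inter_Iio, min_eq_right h]

private theorem cut_self {C Om : K → Set K} {node : K → K × Set K} {lev : K → Set (Set K)}
    (hL : IsLev C Om node lev) {a : K} {s : Set K} (hs : s ∈ lev a) : s ∩ Iio a = s :=
  inter_eq_left.2 (lev_sub hL hs)

/-- `s` is the node of level `b` on the path through `x` at `g`. -/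
private def Pth (Om : K → Set K) (node : K → K × Set K) (lev : K → Set (Set K)) (X : Set K)
    (g : K) (x : Set K) (b : K) (s : Set K) : Prop :=
  s ∈ lev b ∧ s ∩ Iio g = x ∧ ∀ b' ∈ X, b' ≤ b → ∀ c, PredIn X b' c → g ≤ c →
    s ∩ Iio b' = nx node (Om b') (lev b') b' c (s ∩ Iio c)

private theorem pth_unique {C Om : K → Set K} {node : K → K × Set K} {lev : K → Set (Set K)}
    (hL : IsLev C Om node lev) {X : Set K} {g b : K} {x s t : Set K}
    (hcl : ∀ e < b, Acc X e → e ∈ X) (hg : g ∈ X) (hb : b ∈ X) (hgb : g ≤ b)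
    (h1 : Pth Om node lev X g x b s) (h2 : Pth Om node lev X g x b t) : s = t := by
  have hwf : WellFoundedLT K := OmTwo.wf
  have key : ∀ b', b' ∈ X → g ≤ b' → b' ≤ b → s ∩ Iio b' = t ∩ Iio b' := by
    intro b'
    induction b' using WellFoundedLT.induction with
    | ind b' ih =>
      intro hb' hgb' hle
      rcases hgb'.eq_or_lt with h | h
      · rw [← h, h1.2.1, h2.2.1]
      · by_cases hA : Acc X b'
        · ext y
          constructor
          · rintro ⟨hy, hyb⟩
            obtain ⟨c, hc, h3, h4⟩ := hA.2 (max y g) (max_lt hyb h)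
            have h5 := ih c h4 hc ((le_max_right _ _).trans h3.le) (h4.le.trans hle)
            have h6 : y ∈ s ∩ Iio c := ⟨hy, (le_max_left _ _).trans_lt h3⟩
            rw [h5] at h6
            exact ⟨h6.1, hyb⟩
          · rintro ⟨hy, hyb⟩
            obtain ⟨c, hc, h3, h4⟩ := hA.2 (max y g) (max_lt hyb h)
            have h5 := ih c h4 hc ((le_max_right _ _).trans h3.le) (h4.le.trans hle)
            have h6 : y ∈ t ∩ Iio c := ⟨hy, (le_max_left _ _).trans_lt h3⟩
            rw [← h5] at h6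
            exact ⟨h6.1, hyb⟩
        · obtain ⟨c, hc, hcb, hc2⟩ := exists_pred
            (fun e he hA' => hcl e (he.trans_le hle) hA') hA ⟨g, hg, h⟩
          have hgc : g ≤ c := hc2 g hg h
          rw [h1.2.2 b' hb' hle c ⟨hc, hcb, hc2⟩ hgc, h2.2.2 b' hb' hle c ⟨hc, hcb, hc2⟩ hgc,
            ih c hcb hc hgc (hcb.le.trans hle)]
  have h := key b hb hgb le_rfl
  rwa [cut_self hL h1.1, cut_self hL h2.1] at h

private theorem pth_restr {Om : K → Set K} {node : K → K × Set K} {lev : K → Set (Set K)}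
    {X : Set K} {g b b1 : K} {x s : Set K} (hgb : g ≤ b1) (hb : b1 ≤ b)
    (h1 : Pth Om node lev X g x b s) (hlev : s ∩ Iio b1 ∈ lev b1) :
    Pth Om node lev X g x b1 (s ∩ Iio b1) := by
  refine ⟨hlev, ?_, fun b' hb' hle c hc hgc => ?_⟩
  · rw [cut_cut hgb]
    exact h1.2.1
  · rw [cut_cut hle, cut_cut (hc.2.1.le.trans hle)]
    exact h1.2.2 b' hb' (hle.trans hb) c hc hgc

/-- The union of the nodes of a path. -/
private theorem pth_union {C Om : K → Set K} {node : K → K × Set K} {lev : K → Set (Set K)}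
    (hL : IsLev C Om node lev) {X : Set K} {g e : K} {x : Set K}
    (hlim : Lim e) (hCe : C e = X ∩ Iio e) (hcof : Cofin X e)
    (hcl : ∀ b < e, Acc X b → b ∈ X) (hg : g ∈ X) (hge : g < e) (hx : x ∈ lev g)
    (hN : ∀ b < e, ∀ s ∈ lev b, ∀ c ≤ b, s ∩ Iio c ∈ lev c)
    (hE : ∀ b ∈ X, g ≤ b → b < e → ∃ s, Pth Om node lev X g x b s) :
    ∃ s ∈ lev e, s ∩ Iio g = x ∧ IsPath Om node lev (C e) g x s ∧
      (∀ b' ∈ X, b' < e → ∀ c, PredIn X b' c → g ≤ c →
        s ∩ Iio b' = nx node (Om b') (lev b') b' c (s ∩ Iio c)) ∧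
      ∀ b ∈ X, g ≤ b → b < e → s ∩ Iio b ∈ lev b := by
  set s : Set K := {y | ∃ b ∈ X, g ≤ b ∧ b < e ∧ ∃ t, Pth Om node lev X g x b t ∧ y ∈ t} with hs
  -- the pieces
  have hpc : ∀ b ∈ X, g ≤ b → b < e → ∀ t, Pth Om node lev X g x b t → s ∩ Iio b = t := by
    intro b hb hgb hbe t ht
    ext y
    constructor
    · rintro ⟨⟨b1, hb1, hgb1, hb1e, t1, ht1, hy⟩, hyb⟩
      rcases le_total b1 b with h | h
      · have h3 := pth_restr hgb1 h ht (hN b hbe t ht.1 b1 h)
        have h4 := pth_unique hL (fun e' he' => hcl e' (he'.trans hb1e)) hg hb1 hgb1 ht1 h3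
        rw [h4] at hy
        exact hy.1
      · have h3 := pth_restr hgb h ht1 (hN b1 hb1e t1 ht1.1 b h)
        have h4 := pth_unique hL (fun e' he' => hcl e' (he'.trans hbe)) hg hb hgb ht h3
        rw [h4]
        exact ⟨hy, hyb⟩
    · intro hy
      exact ⟨⟨b, hb, hgb, hbe, t, ht, hy⟩, lev_sub hL ht.1 hy⟩
  have hsub : s ⊆ Iio e := by
    rintro y ⟨b1, hb1, hgb1, hb1e, t1, ht1, hy⟩
    exact (lev_sub hL ht1.1 hy).trans hb1e
  have hsg : s ∩ Iio g = x := by
    obtain ⟨t, ht⟩ := hE g hg le_rfl hge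
    rw [hpc g hg le_rfl hge t ht, ← ht.2.1, cut_self hL ht.1]
  have hpath : ∀ b' ∈ X, b' < e → ∀ c, PredIn X b' c → g ≤ c →
      s ∩ Iio b' = nx node (Om b') (lev b') b' c (s ∩ Iio c) := by
    intro b' hb' hb'e c hc hgc
    have hgb' : g ≤ b' := hgc.trans hc.2.1.le
    obtain ⟨t, ht⟩ := hE b' hb' hgb' hb'e
    have h1 := hpc b' hb' hgb' hb'e t ht
    have h2 : s ∩ Iio c = t ∩ Iio c := by
      rw [← h1, cut_cut hc.2.1.le]
    rw [h1, h2, ← ht.2.2 b' hb' le_rfl c hc hgc, cut_self hL ht.1]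
  have hpathC : IsPath Om node lev (C e) g x s := by
    refine ⟨hsg, fun b' hb' c hc hgc => ?_⟩
    rw [hCe] at hb' hc
    refine hpath b' hb'.1 hb'.2 c ⟨hc.1.1, hc.2.1, fun d hd hdb => ?_⟩ hgc
    exact hc.2.2 d ⟨hd, hdb.trans hb'.2⟩ hdb
  refine ⟨s, (hL.lim e hlim s).2 ⟨hsub, g, ?_, x, hx, hpathC⟩, hsg, hpathC, hpath,
    fun b hb hgb hbe => ?_⟩
  · rw [hCe]
    exact ⟨hg, hge⟩
  · obtain ⟨t, ht⟩ := hE b hb hgb hbe
    rw [hpc b hb hgb hbe t ht]
    exact ht.1

/-- Existence of paths. -/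
private theorem pth_exists {C Om : K → Set K} (hC : Coh C) {node : K → K × Set K}
    {lev : K → Set (Set K)} (hL : IsLev C Om node lev) {a g : K} {x : Set K} (ha : Lim a)
    (hg : g ∈ C a) (hx : x ∈ lev g)
    (hR : ∀ b < a, ∀ s ∈ lev b, ∀ c ≤ b, s ∩ Iio c ∈ lev c)
    (hE : ∀ b < a, ∀ c ≤ b, ∀ y ∈ lev c, ∃ s ∈ lev b, s ∩ Iio c = y) (b : K) (hb : b ∈ C a)
    (hgb : g ≤ b) : ∃ s, Pth Om node lev (C a) g x b s := by
  have hwf : WellFoundedLT K := OmTwo.wf
  induction b using WellFoundedLT.induction with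
  | ind b ih =>
    have hba : b < a := hC.lt a ha b hb
    rcases hgb.eq_or_lt with h | h
    · refine ⟨x, h ▸ hx, cut_self hL hx, fun b' _ hle c hc hgc => ?_⟩
      exact absurd (hc.2.1.trans_le hle) (not_lt.2 (h ▸ hgc))
    · by_cases hA : Acc (C a) b
      · obtain ⟨s, hs, h1, _, h3, _⟩ := pth_union (C := C) (Om := Om) (node := node) (x := x)
          hL hA.lim (hC.coh a ha b hba hA) hA.2
          (fun e he hA' => hC.clo a ha e (he.trans hba) hA') hg h hx
          (fun e he => hR e (he.trans hba))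
          (fun e he hge heb => ih e heb he hge)
        refine ⟨s, hs, h1, fun b' hb' hle c hc hgc => ?_⟩
        rcases hle.eq_or_lt with h5 | h5
        · exfalso
          rw [h5] at hc
          obtain ⟨y, hy, h6, h7⟩ := hA.2 c hc.2.1
          exact absurd (hc.2.2 y hy h7) (not_le.2 h6)
        · exact h3 b' hb' h5 c hc hgc
      · obtain ⟨c, hc, hcb, hc2⟩ := exists_pred
          (fun e he hA' => hC.clo a ha e (he.trans hba) hA') hA ⟨g, hg, h⟩
        have hgc : g ≤ c := hc2 g hg h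
        obtain ⟨t, ht⟩ := ih c hcb hc hgc
        obtain ⟨u, hu, hu2⟩ := hE b hba c hcb.le t ht.1
        have hm : ExtIn (lev b) c t (nx node (Om b) (lev b) b c t) := nx_mem ⟨u, hu, hu2⟩
        set s := nx node (Om b) (lev b) b c t with hs
        have hcut : ∀ d ≤ c, s ∩ Iio d = t ∩ Iio d := by
          intro d hd
          rw [← hm.2, cut_cut hd]
        refine ⟨s, hm.1, ?_, fun b' hb' hle c' hc' hgc' => ?_⟩
        · rw [hcut g hgc]
          exact ht.2.1
        · rcases hle.eq_or_lt with h5 | h5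
          · subst h5
            have h6 : c' = c := le_antisymm (hc2 c' hc'.1 hc'.2.1) (hc'.2.2 c hc hcb)
            subst h6
            rw [hm.2, cut_self hL hm.1]
          · have h6 : b' ≤ c := hc2 b' hb' h5
            rw [hcut b' h6, hcut c' (hc'.2.1.le.trans h6)]
            exact ht.2.2 b' hb' h6 c' hc' hgc'

private theorem lev_both {C Om : K → Set K} (hC : Coh C) {node : K → K × Set K}
    {lev : K → Set (Set K)} (hL : IsLev C Om node lev) (a : K) :
    (∀ s ∈ lev a, ∀ b ≤ a, s ∩ Iio b ∈ lev b) ∧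
      ∀ b ≤ a, ∀ x ∈ lev b, ∃ s ∈ lev a, s ∩ Iio b = x := by
  have hwf : WellFoundedLT K := OmTwo.wf
  induction a using WellFoundedLT.induction with
  | ind a ih =>
    have hR0 : ∀ s ∈ lev a, s ∩ Iio a ∈ lev a := fun s hs => by rwa [cut_self hL hs]
    have hE0 : ∀ x ∈ lev a, ∃ s ∈ lev a, s ∩ Iio a = x := fun x hx => ⟨x, hx, cut_self hL hx⟩
    rcases zero_succ_lim a with h | ⟨c, hc, h⟩ | h
    · refine ⟨fun s hs b hb => ?_, fun b hb x hx => ?_⟩
      · rcases hb.eq_or_lt with h1 | h1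
        · rw [h1]
          exact hR0 s hs
        · exact absurd h1 (h b)
      · rcases hb.eq_or_lt with h1 | h1
        · rw [h1] at hx ⊢
          exact hE0 x hx
        · exact absurd h1 (h b)
    · have hlev := hL.succ a c hc h
      refine ⟨fun s hs b hb => ?_, fun b hb x hx => ?_⟩
      · rcases hb.eq_or_lt with h1 | h1
        · rw [h1]
          exact hR0 s hs
        · have h2 : b ≤ c := h b h1
          rw [hlev] at hs
          have h3 := (ih c hc).1 _ hs.2 b h2
          rwa [cut_cut h2] at h3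
      · rcases hb.eq_or_lt with h1 | h1
        · rw [h1] at hx ⊢
          exact hE0 x hx
        · have h2 : b ≤ c := h b h1
          obtain ⟨s, hs, h3⟩ := (ih c hc).2 b h2 x hx
          refine ⟨s, ?_, h3⟩
          rw [hlev]
          refine ⟨fun y hy => (lev_sub hL hs hy).trans hc, ?_⟩
          rwa [cut_self hL hs]
    · have hR : ∀ b < a, ∀ s ∈ lev b, ∀ c ≤ b, s ∩ Iio c ∈ lev c := fun b hb => (ih b hb).1
      have hE : ∀ b < a, ∀ c ≤ b, ∀ y ∈ lev c, ∃ s ∈ lev b, s ∩ Iio c = y :=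
        fun b hb => (ih b hb).2
      have hcl : ∀ b < a, Acc (C a) b → b ∈ C a := hC.clo a h
      have hCa : C a = C a ∩ Iio a := (inter_eq_left.2 (hC.lt a h)).symm
      have hun : ∀ g ∈ C a, ∀ x ∈ lev g, ∃ s ∈ lev a, s ∩ Iio g = x ∧
          IsPath Om node lev (C a) g x s ∧ ∀ b ∈ C a, g ≤ b → b < a → s ∩ Iio b ∈ lev b := by
        intro g hg x hx
        obtain ⟨s, h1, h2, h3, _, h5⟩ := pth_union (C := C) (Om := Om) (node := node) (x := x)
          hL h hCa (hC.cof a h) hcl hg (hC.lt a h g hg) hx hR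
          (fun b hb hgb _ => pth_exists hC hL h hg hx hR hE b hb hgb)
        exact ⟨s, h1, h2, h3, h5⟩
      refine ⟨fun s hs b hb => ?_, fun b hb x hx => ?_⟩
      · rcases hb.eq_or_lt with h1 | h1
        · rw [h1]
          exact hR0 s hs
        · obtain ⟨hsub, g, hg, x, hx, hpath⟩ := (hL.lim a h s).1 hs
          obtain ⟨t, ht, _, h3, h4⟩ := hun g hg x hx
          have hst : s = t := path_unique (hC.cof a h) hcl hg (hC.lt a h g hg) hsub
            (lev_sub hL ht) hpath h3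
          obtain ⟨b', hb', h5, h6⟩ := hC.cof a h (max b g) (max_lt h1 (hC.lt a h g hg))
          have h7 := h4 b' hb' ((le_max_right _ _).trans h5.le) h6
          have h8 : b ≤ b' := (le_max_left _ _).trans h5.le
          have h9 := hR b' h6 _ h7 b h8
          rwa [cut_cut h8, ← hst] at h9
      · rcases hb.eq_or_lt with h1 | h1
        · rw [h1] at hx ⊢
          exact hE0 x hx
        · obtain ⟨g, hg, h2, h3⟩ := hC.cof a h b h1
          obtain ⟨y, hy, h4⟩ := hE g h3 b h2.le x hx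
          obtain ⟨s, hs, h5, _, _⟩ := hun g hg y hy
          refine ⟨s, hs, ?_⟩
          rw [← h4, ← h5, cut_cut h2.le]

theorem lev_restr {C Om : K → Set K} (hC : Coh C) {node : K → K × Set K}
    {lev : K → Set (Set K)} (hL : IsLev C Om node lev) {a b : K} (hb : b ≤ a) {s : Set K}
    (hs : s ∈ lev a) : s ∩ Iio b ∈ lev b := (lev_both hC hL a).1 s hs b hb

theorem lev_ext {C Om : K → Set K} (hC : Coh C) {node : K → K × Set K}
    {lev : K → Set (Set K)} (hL : IsLev C Om node lev) {a b : K} (hb : b ≤ a) {x : Set K}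
    (hx : x ∈ lev b) : ∃ s ∈ lev a, s ∩ Iio b = x := (lev_both hC hL a).2 b hb x hx

end Pool.Agent.Lib.MP_bdcdea_lc
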