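import Pool.Agent.Lib.MP_bdcdea_lc.TreeB

set_option autoImplicit false

/-!
# The size of the levels
-/

namespace Pool.Agent.Lib.MP_bdcdea_lc

open Set Cardinal

variable {K : Type} [LinearOrder K] [OmTwo K]

private theorem TreeC_below {lev : K → Set (Set K)} (a : K)
    (h : ∀ b < a, Cardinal.mk (lev b) ≤ Cardinal.aleph 1) :
    Cardinal.mk {p : K × Set K | p.1 < a ∧ p.2 ∈ lev p.1} ≤ Cardinal.aleph 1 := by
  have h1 : Cardinal.mk {p : K × Set K | p.1 < a ∧ p.2 ∈ lev p.1} ≤
      Cardinal.mk (Σ b : Iio a, lev b.1) := by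
    refine Cardinal.mk_le_of_injective
      (f := fun p => ⟨⟨p.1.1, p.2.1⟩, ⟨p.1.2, p.2.2⟩⟩) ?_
    rintro ⟨⟨b, s⟩, hp⟩ ⟨⟨b', s'⟩, hp'⟩ heq
    simp only [Sigma.mk.injEq, Subtype.mk.injEq] at heq
    obtain ⟨hb, hs⟩ := heq
    subst hb
    have hs' := eq_of_heq hs
    rw [Subtype.mk.injEq] at hs'
    subst hs'
    rfl
  refine h1.trans ?_
  rw [Cardinal.mk_sigma]
  refine (Cardinal.sum_le_sum (fun b : Iio a => Cardinal.mk (lev b.1))
    (fun _ => Cardinal.aleph 1) fun b => h b.1 b.2).trans ?_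
  rw [Cardinal.sum_const']
  refine (mul_le_mul' (OmTwo.ini a) le_rfl).trans ?_
  rw [Cardinal.mul_eq_self (Cardinal.aleph0_le_aleph 1)]

theorem mk_lev {C Om : K → Set K} (hC : Coh C) {node : K → K × Set K}
    {lev : K → Set (Set K)} (hL : IsLev C Om node lev) (a : K) :
    Cardinal.mk (lev a) ≤ Cardinal.aleph 1 := by
  have wf : WellFounded (fun a b : K => a < b) := (OmTwo.wf (K := K)).wf
  induction a using wf.induction with
  | _ a ih =>
    rcases zero_succ_lim a with h0 | ⟨b, hb, hab⟩ | ha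
    · rw [hL.zero a h0, Cardinal.mk_singleton]
      exact Cardinal.one_le_aleph0.trans (Cardinal.aleph0_le_aleph 1)
    · have hlev := hL.succ a b hb hab
      have h1 : Cardinal.mk (lev a) ≤ Cardinal.mk (lev b × Prop) := by
        rw [hlev]
        refine Cardinal.mk_le_of_injective (f := fun s => (⟨s.1 ∩ Iio b, s.2.2⟩, b ∈ s.1)) ?_
        rintro ⟨s, hs⟩ ⟨t, ht⟩ heq
        simp only [Prod.mk.injEq, Subtype.mk.injEq] at heq
        obtain ⟨h2, h3⟩ := heq
        apply Subtype.ext
        show s = t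
        ext y
        have key : y < a → (y ∈ s ↔ y ∈ t) := by
          intro hy
          rcases (hab y hy).eq_or_lt with hyb | hyb
          · rw [hyb]
            exact Eq.to_iff h3
          · have h4 : y ∈ s ∩ Iio b ↔ y ∈ t ∩ Iio b := by rw [h2]
            simpa [hyb] using h4
        exact ⟨fun hy => (key (hs.1 hy)).1 hy, fun hy => (key (ht.1 hy)).2 hy⟩
      refine h1.trans ?_
      rw [Cardinal.mk_prod, Cardinal.lift_id, Cardinal.lift_id, Cardinal.mk_Prop]
      refine (mul_le_mul' (ih b hb) ((Cardinal.natCast_lt_aleph0 (n := 2)).le.trans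
        (Cardinal.aleph0_le_aleph 1))).trans ?_
      rw [Cardinal.mul_eq_self (Cardinal.aleph0_le_aleph 1)]
    · refine le_trans ?_ (TreeC_below a ih)
      choose G hGC X hX hp using fun s : lev a => ((hL.lim a ha s.1).1 s.2).2
      refine Cardinal.mk_le_of_injective
        (f := fun s => ⟨(G s, X s), hC.lt a ha _ (hGC s), hX s⟩) ?_
      intro s t heq
      have h2 := congrArg Subtype.val heq
      simp only [Prod.mk.injEq] at h2
      have h3 := hp t
      rw [← h2.1, ← h2.2] at h3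
      exact Subtype.ext (path_unique (hC.cof a ha) (fun b hb hacc => hC.clo a ha b hb hacc)
        (hGC s) (hC.lt a ha _ (hGC s)) ((hL.lim a ha s.1).1 s.2).1
        ((hL.lim a ha t.1).1 t.2).1 (hp s) h3)

/-- the nodes below a level -/
theorem mk_below {C Om : K → Set K} (hC : Coh C) {node : K → K × Set K}
    {lev : K → Set (Set K)} (hL : IsLev C Om node lev) (a : K) :
    Cardinal.mk {p : K × Set K | p.1 < a ∧ p.2 ∈ lev p.1} ≤ Cardinal.aleph 1 :=
  TreeC_below a fun b _ => mk_lev hC hL b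

end Pool.Agent.Lib.MP_bdcdea_lc
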