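import Pool.Agent.Lib.MP_bdcdea_lc.TreeC
import Pool.Agent.Lib.MP_bdcdea_lc.ClubB

set_option autoImplicit false

/-!
# Sealing antichains
-/

namespace Pool.Agent.Lib.MP_bdcdea_lc

open Set Cardinal

variable {K : Type} [LinearOrder K] [OmTwo K]

/-- the order of the nodes -/
def NLe (p q : K × Set K) : Prop := p.1 ≤ q.1 ∧ q.2 ∩ Iio p.1 = p.2

/-- the closure property used for sealing -/
def Seal (node : K → K × Set K) (lev : K → Set (Set K)) (A : Set K) (b : K) : Prop :=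
  ∀ c < b, ∀ y ∈ lev c, ∃ d < b, c ≤ d ∧ ∃ t ∈ lev d, t ∩ Iio c = y ∧
    ∃ x ∈ A, x < b ∧ Above (node x) d t

omit [OmTwo K] in
private theorem treeD_cut {s : Set K} {b c : K} (h : b ≤ c) :
    s ∩ Iio c ∩ Iio b = s ∩ Iio b := by
  rw [inter_assoc, Iio_inter_Iio, min_eq_right h]

/-- At a hit, all nodes of the level are above a node of the antichain of smaller level. -/
theorem seal_hit {C Om : K → Set K} (hC : Coh C) {node : K → K × Set K}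
    {lev : K → Set (Set K)} (hL : IsLev C Om node lev) {A E : Set K}
    (hE : ∀ b ∈ E, Seal node lev A b) {a : K} (ha : Lim a)
    (hh : Cofin {b | Nac (C a) b ∧ b ∈ E ∧ Om b = A ∩ Iio b} a) :
    ∀ s ∈ lev a, ∃ x ∈ A, (node x).1 < a ∧ s ∩ Iio (node x).1 = (node x).2 := by
  intro s hs
  obtain ⟨-, g, hg, x, -, -, hpath⟩ := (hL.lim a ha s).1 hs
  obtain ⟨b, ⟨hb1, hb2, hb3⟩, hgb, hba⟩ := hh g (hC.lt a ha g hg)
  obtain ⟨c, hc, hcb, hc2⟩ := exists_pred (X := C a) (b := b)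
    (fun e he hA => hC.clo a ha e (he.trans hba) hA) hb1.2 ⟨g, hg, hgb⟩
  have hgc : g ≤ c := hc2 g hg hgb
  have hnode := hpath b hb1.1 c ⟨hc, hcb, hc2⟩ hgc
  have hy : s ∩ Iio c ∈ lev c := lev_restr hC hL (hcb.trans hba).le hs
  obtain ⟨d, hdb, hcd, t, ht, htc, x', hx'A, hx'b, hx'1, hx'2⟩ := hE b hb2 c hcb _ hy
  obtain ⟨t', ht', ht'd⟩ := lev_ext hC hL hdb.le ht
  have hex : ∃ u, ExtIn (lev b) c (s ∩ Iio c) u ∧ HitIn node (Om b) b u := by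
    refine ⟨t', ⟨ht', ?_⟩, x', ?_, hx'1.trans hdb.le, ?_⟩
    · rw [← treeD_cut hcd, ht'd, htc]
    · rw [hb3]
      exact ⟨hx'A, hx'b⟩
    · rw [← treeD_cut hx'1, ht'd, hx'2]
  have hhit := nx_hit hex
  rw [← hnode] at hhit
  obtain ⟨x'', hx''1, hx''2, hx''3⟩ := hhit
  rw [hb3] at hx''1
  refine ⟨x'', hx''1.1, hx''2.trans_lt hba, ?_⟩
  rw [treeD_cut hx''2] at hx''3
  exact hx''3

/-- The closure points contain a closed unbounded set. -/
theorem club_seal {C Om : K → Set K} (hC : Coh C) {node : K → K × Set K}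
    (hn : ∀ (a : K) (s : Set K), s ⊆ Iio a → ∃ x, node x = (a, s))
    {lev : K → Set (Set K)} (hL : IsLev C Om node lev) {M : Set (K × Set K)}
    (hM : ∀ p ∈ M, p.2 ∈ lev p.1)
    (hmax : ∀ p : K × Set K, p.2 ∈ lev p.1 → ∃ q ∈ M, NLe p q ∨ NLe q p) :
    ∃ E, Club E ∧ ∀ b ∈ E, Seal node lev {x | node x ∈ M} b := by
  have key : ∀ c : K, ∀ y : Set K, ∃ d ξ : K, y ∈ lev c → c ≤ d ∧ ∃ t ∈ lev d, t ∩ Iio c = y ∧
      node ξ ∈ M ∧ Above (node ξ) d t := by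
    intro c y
    by_cases hy : y ∈ lev c
    · obtain ⟨q, hqM, hq⟩ := hmax (c, y) hy
      obtain ⟨ξ, hξ⟩ := hn q.1 q.2 (lev_sub hL (hM q hqM))
      rcases hq with ⟨h1, h2⟩ | ⟨h1, h2⟩
      · refine ⟨q.1, ξ, fun _ => ⟨h1, q.2, hM q hqM, h2, ?_, ?_⟩⟩
        · rw [hξ]
          exact hqM
        · rw [hξ]
          exact ⟨le_rfl, inter_eq_left.2 (lev_sub hL (hM q hqM))⟩
      · refine ⟨c, ξ, fun _ => ⟨le_rfl, y, hy, inter_eq_left.2 (lev_sub hL hy), ?_, ?_⟩⟩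
        · rw [hξ]
          exact hqM
        · rw [hξ]
          exact ⟨h1, h2⟩
    · exact ⟨c, c, fun h => absurd h hy⟩
  choose dd xx hk using key
  have hF : ∀ c, Cardinal.mk ((dd c '' lev c ∪ xx c '' lev c : Set K)) ≤ Cardinal.aleph 1 := by
    intro c
    refine (Cardinal.mk_union_le _ _).trans ?_
    refine Cardinal.add_le_of_le (Cardinal.aleph0_le_aleph 1) ?_ ?_
    · exact Cardinal.mk_image_le.trans (mk_lev hC hL c)
    · exact Cardinal.mk_image_le.trans (mk_lev hC hL c)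
  refine ⟨_, club_closed_set (fun c => dd c '' lev c ∪ xx c '' lev c) hF, ?_⟩
  intro b hb c hcb y hy
  obtain ⟨h1, t, ht, h2, h3, h4⟩ := hk c y hy
  exact ⟨dd c y, hb c hcb _ (Or.inl ⟨y, hy, rfl⟩), h1, t, ht, h2, xx c y, h3,
    hb c hcb _ (Or.inr ⟨y, hy, rfl⟩), h4⟩

/-- Maximal antichains are bounded. -/
theorem antichain_bdd {C Om : K → Set K} (hP : PP C Om) {node : K → K × Set K}
    (hn : ∀ (a : K) (s : Set K), s ⊆ Iio a → ∃ x, node x = (a, s))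
    {lev : K → Set (Set K)} (hL : IsLev C Om node lev) {M : Set (K × Set K)}
    (hM : ∀ p ∈ M, p.2 ∈ lev p.1) (hanti : ∀ p ∈ M, ∀ q ∈ M, NLe p q → p = q)
    (hmax : ∀ p : K × Set K, p.2 ∈ lev p.1 → ∃ q ∈ M, NLe p q ∨ NLe q p) :
    ∃ a : K, ∀ p ∈ M, p.1 < a := by
  obtain ⟨E, hE, hES⟩ := club_seal hP.coh hn hL hM hmax
  obtain ⟨a, ha, hh⟩ := hP.hit {x | node x ∈ M} E hE
  refine ⟨a, fun p hp => ?_⟩
  by_contra hpa
  have hpa' : a ≤ p.1 := not_lt.1 hpa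
  obtain ⟨x, hxM, hxa, hx⟩ := seal_hit hP.coh hL hES ha hh _
    (lev_restr hP.coh hL hpa' (hM p hp))
  rw [treeD_cut hxa.le] at hx
  have h1 : node x = p := hanti (node x) hxM p hp ⟨hxa.le.trans hpa', hx⟩
  rw [h1] at hxa
  exact hpa hxa

end Pool.Agent.Lib.MP_bdcdea_lc
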